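import Pool.Agent.Lib.MP_e32f22_lc.Red
import Pool.Agent.Lib.CookLevin.Bin

/-!
The instance can be computed in polynomial time.
-/

namespace Pool.Agent.Lib.MP_e32f22_lc

open Function CookLevin HerCo

/-- number of a vertex of a path -/
def cnd (B x : ℕ) (b : Bool) (i : ℕ) : ℕ :=
  if i = 0 then 2 * x + 2 else if i = B then 2 * (x + 1) + 2
  else 2 * Nat.pair x (Nat.pair (if b then 1 else 0) i) + 3

theorem code_nd (F : Sl) (x : ℕ) (b : Bool) (i : ℕ) : code (F.nd x b i) = cnd F.B x b i := by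
  unfold Sl.nd cnd
  by_cases h1 : i = 0
  · simp [h1, code]
  · by_cases h2 : i = F.B
    · rw [if_neg h1, if_pos h2, if_neg h1, if_pos h2]; rfl
    · cases b <;> simp [h1, h2, code]

/-- columns as pairs of pairs of numbers -/
abbrev Q4 := (ℕ × ℕ) × (ℕ × ℕ)

/-- the edges of a pair -/
def nc (F : Sl) (i : Cl) : Q4 :=
  ((code (F.e1 i).1, code (F.e1 i).2), (code (F.e2 i).1, code (F.e2 i).2))

/-- the edges of a pair of a path -/
def ncPa (φ : Cnf) (S : List (ℕ × ℕ × Bool)) (B x : ℕ) (b : Bool) (i : ℕ) : Q4 :=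
  ((cnd B x b i, cnd B x b (i + 1)),
    if (S.getD i (0, 0, true)).2 = (x, b) then
      (2 * (nv φ + (S.getD i (0, 0, true)).1) + 2, 2 * (nv φ + (S.getD i (0, 0, true)).1 + 1) + 2)
    else (0, 0))

/-- the edges of a return pair -/
def ncRe (φ : Cnf) (t : ℕ) : Q4 :=
  ((2 * (nv φ + φ.length) + 2, if t = 0 then 2 else if t + 1 = wd φ then 0 else 2 * nv φ + 2),
    (0, 0))

theorem nc_pa (φ : Cnf) (x : ℕ) (b : Bool) (i : ℕ) :
    nc (sl φ) (.pa x b i) = ncPa φ (slots φ) (φ.length * wd φ) x b i := by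
  have h1 : code ((sl φ).nd x b i) = cnd (φ.length * wd φ) x b i := code_nd (sl φ) x b i
  have h2 : code ((sl φ).nd x b (i + 1)) = cnd (φ.length * wd φ) x b (i + 1) :=
    code_nd (sl φ) x b (i + 1)
  by_cases h : ((slots φ).getD i (0, 0, true)).2 = (x, b)
  · have h3 : (sl φ).e2 (.pa x b i) = (.u (nv φ + ((slots φ).getD i (0, 0, true)).1),
        .u (nv φ + ((slots φ).getD i (0, 0, true)).1 + 1)) := if_pos h
    unfold nc ncPa
    rw [h3, if_pos h]
    simp only [Sl.e1, h1, h2]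
    rfl
  · have h3 : (sl φ).e2 (.pa x b i) = (.f, .f) := if_neg h
    unfold nc ncPa
    rw [h3, if_neg h]
    simp only [Sl.e1, h1, h2]
    rfl

theorem nc_re (φ : Cnf) (t : ℕ) : nc (sl φ) (.re t) = ncRe φ t := by
  unfold nc ncRe
  simp only [Sl.e1, Sl.e2, code]
  congr 2
  show code (if t = 0 then .u 0 else if t + 1 = wd φ then .f else .u (nv φ)) = _
  split_ifs <;> rfl

/-- all columns -/
def cols (φ : Cnf) : List Q4 :=
  ((1, 2), (0, 0)) :: (((List.range (nv φ)).flatMap fun x => [false, true].flatMap fun b =>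
    (List.range (φ.length * wd φ)).map fun i => ncPa φ (slots φ) (φ.length * wd φ) x b i) ++
    (List.range (wd φ)).map fun t => ncRe φ t)

theorem cols_eq (φ : Cnf) : cols φ = (sl φ).enum.map (nc (sl φ)) := by
  unfold cols Sl.enum
  rw [List.map_cons, List.map_append, List.map_flatMap]
  simp only [List.map_flatMap, List.map_map]
  congr 1
  congr 1
  · show (List.range (nv φ)).flatMap _ = (List.range (nv φ)).flatMap _
    refine List.flatMap_congr fun x _ => List.flatMap_congr fun b _ => ?_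
    show List.map _ (List.range (φ.length * wd φ)) = List.map _ (List.range (φ.length * wd φ))
    refine List.map_congr_left fun i _ => ?_
    exact (nc_pa φ x b i).symm
  · show List.map _ (List.range (wd φ)) = List.map _ (List.range (wd φ))
    refine List.map_congr_left fun t _ => ?_
    exact (nc_re φ t).symm

/-- first contents -/
def iniC (A : List Q4) : List (ℕ × ℕ) :=
  A.map (fun a => (cR a.1.2, cR a.2.2)) ++
    (A.flatMap fun a => [a.1.2, a.2.2]).map fun t => (0, cL t)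

/-- last contents -/
def finC (A : List Q4) : List (ℕ × ℕ) :=
  A.map (fun a => (cL a.1.1, cL a.2.1)) ++
    (A.flatMap fun a => [a.1.2, a.2.2]).map fun t => (cR t, 0)

theorem iniC_cols (φ : Cnf) : iniC (cols φ) = (sl φ).iniL := by
  unfold iniC Sl.iniL Sl.tgl
  rw [cols_eq, List.map_map, List.flatMap_map]
  rfl

theorem finC_cols (φ : Cnf) : finC (cols φ) = (sl φ).finL := by
  unfold finC Sl.finL Sl.tgl
  rw [cols_eq, List.map_map, List.flatMap_map]
  rfl

/-- tokens with binary numbers -/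
abbrev BTok := List ((BZ × BZ) × BN)

/-- the coded tokens -/
def btoks (L : List (ℕ × ℕ)) (e : ℕ) : BTok :=
  ((BZ.mk ((0 : ℕ) : ℤ), BZ.mk ((2 : ℕ) : ℤ)), BN.mk e) ::
    (List.range L.length).flatMap fun c : ℕ =>
      [((BZ.mk (c : ℤ), BZ.mk ((0 : ℕ) : ℤ)), BN.mk (L.getD c (0, 0)).1),
        ((BZ.mk (c : ℤ), BZ.mk ((1 : ℕ) : ℤ)), BN.mk (L.getD c (0, 0)).2)]

/-- coding of a token -/
def wtok (t : (ℤ × ℤ) × ℕ) : (BZ × BZ) × BN := ((BZ.mk t.1.1, BZ.mk t.1.2), BN.mk t.2)

theorem btoks_eq (L : List (ℕ × ℕ)) (e : ℕ) : btoks L e = (toks L e).map wtok := by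
  unfold btoks toks
  rw [List.map_cons, List.map_flatMap]
  rfl

theorem enc_wtok (t : (ℤ × ℤ) × ℕ) : enc (wtok t) = N487b59b3.bitEncode t :=
  agree_pair (f := fun z : ℤ × ℤ => (BZ.mk z.1, BZ.mk z.2)) (g := BN.mk)
    (fun z => agree_pair (f := BZ.mk) (g := BZ.mk) (fun _ => rfl) (fun _ => rfl) z)
    (fun _ => rfl) t

/-- the instance, coded -/
def binst (φ : Cnf) : BTok × BTok :=
  (btoks (iniC (cols φ)) (cL 1), btoks (finC (cols φ)) (cL 0))

/-- the instance -/
def theInst (φ : Cnf) : Tokens × Tokens := (sl φ).inst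

/-- the bound -/
def theBound (φ : Cnf) : ℕ := 6 * (cols φ).length ^ 2 + 4 * (cols φ).length

theorem theBound_eq (φ : Cnf) : theBound φ = (sl φ).bound := by
  unfold theBound Sl.bound
  rw [cols_eq, List.length_map]

theorem enc_binst (φ : Cnf) : enc (binst φ) = N487b59b3.bitEncode (theInst φ) := by
  unfold binst theInst Sl.inst
  rw [btoks_eq, btoks_eq, iniC_cols, finC_cols]
  exact agree_pair (f := fun l : Tokens => l.map wtok) (g := fun l : Tokens => l.map wtok)
    (agree_list enc_wtok) (agree_list enc_wtok)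
    (toks (sl φ).iniL (cL (code Nm.s)), toks (sl φ).finL (cL (code Nm.f)))

/-! ### computability -/

variable {α : Type} [Enc α] {m : Mode}

@[fun_prop]
theorem FP.wd {φ : α → Cnf} (hφ : FP m φ) : FP m (fun a => wd (φ a)) := by
  unfold MP_e32f22_lc.wd
  fun_prop

@[fun_prop]
theorem FP.nv {φ : α → Cnf} (hφ : FP m φ) : FP m (fun a => nv (φ a)) := by
  unfold MP_e32f22_lc.nv
  fun_prop

@[fun_prop]
theorem FP.slots {φ : α → Cnf} (hφ : FP m φ) : FP m (fun a => slots (φ a)) := by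
  unfold MP_e32f22_lc.slots MP_e32f22_lc.pl
  fun_prop

@[fun_prop]
theorem FP.cnd {B x i : α → ℕ} {b : α → Bool} (hB : FP m B) (hx : FP m x) (hb : FP m b)
    (hi : FP m i) : FP m (fun a => cnd (B a) (x a) (b a) (i a)) := by
  unfold MP_e32f22_lc.cnd
  have h1 : FP m (fun a => if b a then 1 else 0) := FP.ite hb (FP.const 1) (FP.const 0)
  fun_prop

@[fun_prop]
theorem FP.ncRe {φ : α → Cnf} {t : α → ℕ} (hφ : FP m φ) (ht : FP m t) :
    FP m (fun a => ncRe (φ a) (t a)) := by
  unfold MP_e32f22_lc.ncRe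
  fun_prop

@[fun_prop]
theorem FP.ncPa {φ : α → Cnf} {S : α → List (ℕ × ℕ × Bool)} {B x i : α → ℕ} {b : α → Bool}
    (hφ : FP m φ) (hS : FP m S) (hB : FP m B) (hx : FP m x) (hb : FP m b) (hi : FP m i) :
    FP m (fun a => ncPa (φ a) (S a) (B a) (x a) (b a) (i a)) := by
  unfold MP_e32f22_lc.ncPa
  have h1 : FP m (fun a => decide (((S a).getD (i a) (0, 0, true)).2 = (x a, b a))) :=
    FP.decEq (by fun_prop) (by fun_prop)
  fun_prop

@[fun_prop]
theorem FP.cols {φ : α → Cnf} (hφ : FP m φ) : FP m (fun a => cols (φ a)) := by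
  unfold MP_e32f22_lc.cols
  fun_prop

theorem FP.iniC {A : α → List Q4} (hA : FP m A) : FP m (fun a => iniC (A a)) := by
  unfold MP_e32f22_lc.iniC cR cL
  fun_prop

theorem FP.finC {A : α → List Q4} (hA : FP m A) : FP m (fun a => finC (A a)) := by
  unfold MP_e32f22_lc.finC cR cL
  fun_prop

theorem FP.btoks {L : α → List (ℕ × ℕ)} {e : α → ℕ} (hL : FP m L) (he : FP m e) :
    FP m (fun a => btoks (L a) (e a)) := by
  unfold MP_e32f22_lc.btoks
  fun_prop

theorem FP.binst {φ : α → Cnf} (hφ : FP m φ) : FP m (fun a => binst (φ a)) := by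
  unfold MP_e32f22_lc.binst
  exact (FP.btoks (FP.iniC (FP.cols hφ)) (FP.const _)).pair
    (FP.btoks (FP.finC (FP.cols hφ)) (FP.const _))

theorem FP.theBound {φ : α → Cnf} (hφ : FP m φ) : FP m (fun a => theBound (φ a)) := by
  unfold MP_e32f22_lc.theBound
  fun_prop

end Pool.Agent.Lib.MP_e32f22_lc
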