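import Mathlib
import Pool.Prelude.Def_H_3587d628

/-!
The line-push Permutation Puzzle.
-/

namespace Pool.Agent.Lib.MP_e32f22_lc

open N68a2faeb

/-- A labelled placement of tokens on the cells of the square lattice: `c p = some a` says that
there is a token with the label `a` at the cell `p`. -/
abbrev Config := ℤ × ℤ → Option ℕ

/-- The cell `p` belongs to the bounding box of `c`. -/
def InBox (c : Config) (p : ℤ × ℤ) : Prop :=
  (∃ q, c q ≠ none ∧ q.1 ≤ p.1) ∧ (∃ q, c q ≠ none ∧ p.1 ≤ q.1) ∧
  (∃ q, c q ≠ none ∧ q.2 ≤ p.2) ∧ (∃ q, c q ≠ none ∧ p.2 ≤ q.2)

/-- In the push with direction vector `v` the token at `p` moves: there is an empty cell of the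
bounding box on the ray that starts at `p` and has the direction `v`. -/
def Moves (c : Config) (v p : ℤ × ℤ) : Prop :=
  c p ≠ none ∧ ∃ n : ℕ, 0 < n ∧ InBox c (p + n • v) ∧ c (p + n • v) = none

/-- The four pushes. -/
abbrev Dir := Bool × Bool

/-- The direction vector of a push: left, right, down, up. -/
def vec : Dir → ℤ × ℤ
  | (false, false) => (-1, 0)
  | (false, true) => (1, 0)
  | (true, false) => (0, -1)
  | (true, true) => (0, 1)

open Classical in
/-- The push `d`: every token that moves goes to the next cell, the other tokens stay. -/
noncomputable def push (c : Config) (d : Dir) : Config := fun p =>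
  if Moves c (vec d) (p - vec d) then c (p - vec d)
  else if Moves c (vec d) p then none
  else c p

/-- `c` and `d` are equal up to a translation. -/
def TransEq (c d : Config) : Prop := ∃ v : ℤ × ℤ, ∀ p, d (p + v) = c p

/-- `c` and `d` have the same shape. -/
def SameShape (c d : Config) : Prop := ∃ v : ℤ × ℤ, ∀ p, (d (p + v) = none ↔ c p = none)

/-- Neither a left push nor a down push changes `c` up to translation. -/
def Canonical (c : Config) : Prop :=
  TransEq c (push c (false, false)) ∧ TransEq c (push c (true, false))

/-- The configuration after a sequence of pushes. -/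
noncomputable def pushes (c : Config) (w : List Dir) : Config := w.foldl push c

/-- `c` can be reached from a (finite) canonical configuration. -/
def Compact (c : Config) : Prop :=
  ∃ (c₀ : Config) (w : List Dir), {p | c₀ p ≠ none}.Finite ∧ Canonical c₀ ∧
    TransEq (pushes c₀ w) c

/-- A list of tokens: the cells with the labels. -/
abbrev Tokens := List ((ℤ × ℤ) × ℕ)

/-- The configuration given by a list of tokens. -/
def place (l : Tokens) : Config := fun p => l.lookup p

/-- `(C, D)` is an instance of the Permutation Puzzle: two lists of tokens at distinct cells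
that form compact configurations of the same shape. -/
def IsInstance (I : Tokens × Tokens) : Prop :=
  (I.1.map Prod.fst).Nodup ∧ (I.2.map Prod.fst).Nodup ∧
  Compact (place I.1) ∧ Compact (place I.2) ∧ SameShape (place I.1) (place I.2)

/-- The sequence of pushes `w` transforms `C` into `D`. -/
def IsSolution (I : Tokens × Tokens) (w : List Dir) : Prop :=
  TransEq (pushes (place I.1) w) (place I.2)

/-- `w` is a shortest solution. -/
def IsShortest (I : Tokens × Tokens) (w : List Dir) : Prop :=
  IsSolution I w ∧ ∀ w', IsSolution I w' → w.length ≤ w'.length

/-- The function `S` solves the Permutation Puzzle: given an instance, it returns `[w]` for a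
shortest solution `w`, or the empty list if there is no solution. -/
def Solver (S : Tokens × Tokens → List (List Dir)) : Prop :=
  ∀ I, IsInstance I →
    (∃ w, IsShortest I w ∧ S I = [w]) ∨ ((¬ ∃ w, IsSolution I w) ∧ S I = [])

/-- NP-hardness of finding shortest solutions. For every problem `L` in NP there are
polynomial-time functions `f`, `k`, `g` such that for all `x`: `f x` is an instance of the
Permutation Puzzle; `x` belongs to `L` if and only if `f x` has a solution with at most `k x`
pushes; and for every function `S` that solves the Permutation Puzzle, `g` computes from `x` and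
the output of `S` on `f x` whether `x` belongs to `L`. -/
def FindingShortestIsNPHard : Prop :=
  ∀ L ∈ NP, ∃ (f : List Bool → Tokens × Tokens) (k : List Bool → ℕ)
    (g : List Bool × List (List Dir) → Bool),
    IsPolyTime f ∧ IsPolyTime k ∧ IsPolyTime g ∧ ∀ x, IsInstance (f x) ∧
      (L x = true ↔ ∃ w, IsSolution (f x) w ∧ w.length ≤ k x) ∧
      ∀ S, Solver S → L x = g (x, S (f x))

end Pool.Agent.Lib.MP_e32f22_lc
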