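import Pool.Agent.Lib.MP_e32f22_lc.Sat

/-!
From formulas to instances of the Permutation Puzzle.
-/

namespace Pool.Agent.Lib.MP_e32f22_lc

open Function

/-! ### renaming walks -/

theorem Walk.map {ι N : Type} [DecidableEq ι] {E : ι → Prop} {e1 e2 : ι → N × N} {fin cur : N}
    {o : ι → ℕ} (m : ℕ) (g : ℕ → ι) (hinj : ∀ c < m, ∀ c' < m, g c = g c' → c = c')
    (hsurj : ∀ i, E i → ∃ c < m, g c = i) (hg : ∀ c < m, E (g c)) (co : N → ℕ)
    (h : Walk E e1 e2 fin cur o) :
    Walk (fun c => c < m) (fun c => (co (e1 (g c)).1, co (e1 (g c)).2))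
      (fun c => (co (e2 (g c)).1, co (e2 (g c)).2)) (co fin) (co cur)
      (fun c => if c < m then o (g c) else 0) := by
  have hup : ∀ (o : ι → ℕ) (c v : ℕ), c < m → (fun x => if x < m then update o (g c) v (g x) else 0)
      = update (fun x => if x < m then o (g x) else 0) c v := by
    intro o c v hc
    funext x
    by_cases hx : x = c
    · subst hx; simp [hc]
    · rw [update_of_ne hx]
      by_cases hxm : x < m
      · have : g x ≠ g c := fun h => hx (hinj x hxm c hc h)
        simp [hxm, update_of_ne this]
      · simp [hxm]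
  induction h with
  | done o h =>
    refine Walk.done _ fun c hc => ?_
    simp only [if_pos hc]
    exact h _ (hg c hc)
  | fst o i hi h w ih =>
    obtain ⟨c, hc, rfl⟩ := hsurj i hi
    refine Walk.fst (e1 := fun c => (co (e1 (g c)).1, co (e1 (g c)).2)) _ c hc
      (by simp only [if_pos hc]; exact h) ?_
    rw [← hup o c 1 hc]
    exact ih
  | snd o i hi h w ih =>
    obtain ⟨c, hc, rfl⟩ := hsurj i hi
    refine Walk.snd (e2 := fun c => (co (e2 (g c)).1, co (e2 (g c)).2)) _ c hc
      (by simp only [if_pos hc]; exact h) ?_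
    rw [← hup o c 2 hc]
    exact ih

theorem Walk.unmap {ι N : Type} [DecidableEq ι] {E : ι → Prop} {e1 e2 : ι → N × N} {fin : N}
    (m : ℕ) (g : ℕ → ι) (hinj : ∀ c < m, ∀ c' < m, g c = g c' → c = c')
    (hsurj : ∀ i, E i → ∃ c < m, g c = i) (hg : ∀ c < m, E (g c)) (co : N → ℕ)
    (hco : Injective co) {cur' : ℕ} {o' : ℕ → ℕ}
    (h : Walk (fun c => c < m) (fun c => (co (e1 (g c)).1, co (e1 (g c)).2))
      (fun c => (co (e2 (g c)).1, co (e2 (g c)).2)) (co fin) cur' o') :
    ∀ (cur : N) (o : ι → ℕ), cur' = co cur → (∀ c < m, o (g c) = o' c) →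
      Walk E e1 e2 fin cur o := by
  induction h with
  | done o' h =>
    intro cur o hc ho
    have := hco hc
    subst this
    refine Walk.done _ fun i hi => ?_
    obtain ⟨c, hc, rfl⟩ := hsurj i hi
    rw [ho c hc]
    exact h c hc
  | fst o' c hc h w ih =>
    intro cur o hcur ho
    have := hco hcur
    subst this
    refine Walk.fst _ (g c) (hg c hc) (by rw [ho c hc]; exact h) (ih _ _ rfl fun x hx => ?_)
    by_cases hxc : x = c
    · subst hxc; simp
    · have : g x ≠ g c := fun h => hxc (hinj x hx c hc h)
      rw [update_of_ne this, update_of_ne hxc, ho x hx]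
  | snd o' c hc h w ih =>
    intro cur o hcur ho
    have := hco hcur
    subst this
    refine Walk.snd _ (g c) (hg c hc) (by rw [ho c hc]; exact h) (ih _ _ rfl fun x hx => ?_)
    by_cases hxc : x = c
    · subst hxc; simp
    · have : g x ≠ g c := fun h => hxc (hinj x hx c hc h)
      rw [update_of_ne this, update_of_ne hxc, ho x hx]

/-! ### names -/

/-- numbers of the vertices -/
def code : Nm → ℕ
  | .f => 0
  | .s => 1
  | .u y => 2 * y + 2
  | .q x b i => 2 * Nat.pair x (Nat.pair b.toNat i) + 3

theorem code_inj : Injective code := by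
  intro a b h
  cases a <;> cases b <;> simp only [code] at h
  all_goals first
    | rfl
    | omega
    | skip
  · rename_i y y'
    have : y = y' := by omega
    exact congrArg Nm.u this
  · rename_i x b i x' b' i'
    have h1 : Nat.pair x (Nat.pair b.toNat i) = Nat.pair x' (Nat.pair b'.toNat i') := by omega
    rw [Nat.pair_eq_pair, Nat.pair_eq_pair] at h1
    obtain ⟨rfl, h2, rfl⟩ := h1
    cases b <;> cases b' <;> simp at h2 ⊢

namespace Sl

variable (F : Sl)

theorem nodup_enum : F.enum.Nodup := by
  unfold enum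
  rw [List.nodup_cons]
  constructor
  · simp
  rw [List.nodup_append]
  refine ⟨?_, ?_, ?_⟩
  · rw [List.nodup_flatMap]
    constructor
    · intro x _
      rw [List.nodup_flatMap]
      constructor
      · intro b _
        refine List.Nodup.map ?_ List.nodup_range
        intro i i' h
        simpa using h
      · simp [List.disjoint_left]
    · refine List.Pairwise.imp ?_ List.nodup_range
      intro x x' hx
      rw [onFun, List.disjoint_left]
      intro a h1 h2
      simp only [List.mem_flatMap, List.mem_map] at h1 h2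
      obtain ⟨b, _, i, _, rfl⟩ := h1
      obtain ⟨b', _, i', _, h3⟩ := h2
      simp only [Cl.pa.injEq] at h3
      exact hx h3.1.symm
  · refine List.Nodup.map ?_ List.nodup_range
    intro i i' h
    simpa using h
  · intro a h1 b h2 hab
    subst hab
    simp only [List.mem_flatMap, List.mem_map] at h1 h2
    obtain ⟨x, _, b, _, i, _, rfl⟩ := h1
    obtain ⟨t, _, h3⟩ := h2
    simp at h3

/-- the pair in column `c` -/
def g (c : ℕ) : Cl := F.enum.getD c .st

/-- the targets of the edges -/
def tgl : List ℕ := F.enum.flatMap fun i => [code (F.e1 i).2, code (F.e2 i).2]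

/-- the layout of the puzzle -/
def lay : Lay where
  m := F.enum.length
  e1 := fun c => (code (F.e1 (F.g c)).1, code (F.e1 (F.g c)).2)
  e2 := fun c => (code (F.e2 (F.g c)).1, code (F.e2 (F.g c)).2)
  tt := fun k => F.tgl.getD k 0
  fin := code .f

theorem getD_flatMap_pair {α : Type} (l : List α) (f1 f2 : α → ℕ) (d : α) : ∀ c < l.length,
    (l.flatMap fun i => [f1 i, f2 i]).getD (2 * c) 0 = f1 (l.getD c d) ∧
    (l.flatMap fun i => [f1 i, f2 i]).getD (2 * c + 1) 0 = f2 (l.getD c d) := by
  induction l with
  | nil => intro c hc; simp at hc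
  | cons a l ih =>
    intro c hc
    cases c with
    | zero => simp
    | succ c =>
      have h1 := ih c (by simpa using hc)
      have e1 : 2 * (c + 1) = 2 * c + 2 := by ring
      rw [e1]
      simp only [List.flatMap_cons, List.cons_append, List.nil_append, List.getD_cons_succ]
      exact h1

theorem g_inj : ∀ c < F.enum.length, ∀ c' < F.enum.length, F.g c = F.g c' → c = c' := by
  intro c hc c' hc' h
  unfold g at h
  rw [List.getD_eq_getElem _ _ hc, List.getD_eq_getElem _ _ hc'] at h
  exact (F.nodup_enum.getElem_inj_iff).1 h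

theorem g_E : ∀ c < F.enum.length, F.E (F.g c) := by
  intro c hc
  unfold g
  rw [List.getD_eq_getElem _ _ hc]
  exact (F.mem_enum _).1 (List.getElem_mem hc)

theorem g_surj : ∀ i, F.E i → ∃ c < F.enum.length, F.g c = i := by
  intro i hi
  obtain ⟨c, hc, h⟩ := List.getElem_of_mem ((F.mem_enum i).2 hi)
  exact ⟨c, hc, by unfold g; rw [List.getD_eq_getElem _ _ hc, h]⟩

theorem lay_walk : Walk (fun c => c < F.lay.m) F.lay.e1 F.lay.e2 F.lay.fin (code .s)
    (fun _ => 0) ↔ F.Wk .s (fun _ => 0) := by
  constructor
  · intro h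
    exact Walk.unmap (E := F.E) (e1 := F.e1) (e2 := F.e2) (fin := .f) F.enum.length F.g F.g_inj F.g_surj F.g_E
      code code_inj h .s _ rfl fun _ _ => rfl
  · intro h
    have h1 := Walk.map F.enum.length F.g F.g_inj F.g_surj F.g_E code h
    have h2 : (fun c => if c < F.enum.length then (fun _ : Cl => 0) (F.g c) else 0) =
        (fun _ : ℕ => 0) := by
      funext c; simp
    rw [h2] at h1
    exact h1

theorem lay_main :
    (∃ l : List Dir, l.foldl (stp (3 * F.lay.m)) (F.lay.first (code .s)) = F.lay.last ∧
      l.length ≤ 6 * F.lay.m ^ 2 + 4 * F.lay.m) ↔ F.Wk .s (fun _ => 0) := by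
  rw [← F.lay_walk]
  refine Lay.main _ (by simp [lay, enum]) ?_ ?_ ?_ ?_
  · intro c hc
    exact (getD_flatMap_pair F.enum (fun i => code (F.e1 i).2) (fun i => code (F.e2 i).2) .st c
      hc).1
  · intro c hc
    exact (getD_flatMap_pair F.enum (fun i => code (F.e1 i).2) (fun i => code (F.e2 i).2) .st c
      hc).2
  · intro c hc h
    have h1 : (F.e1 (F.g c)).1 = .s := code_inj h
    have h2 : F.g c = .st := by
      revert h1
      cases F.g c with
      | st => intro _; rfl
      | re t => simp [e1]
      | pa x b i =>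
        simp only [e1, nd]
        split_ifs <;> simp
    have h3 : F.g 0 = .st := by simp [g, enum]
    exact F.g_inj c hc 0 (by simp [enum]) (h2.trans h3.symm)
  · exact fun h => by simp [lay, code] at h

end Sl

end Pool.Agent.Lib.MP_e32f22_lc
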