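import Pool.Agent.Lib.MP_e32f22_lc.Toks

/-!
The puzzle instance of a formula.
-/

namespace Pool.Agent.Lib.MP_e32f22_lc

open Function

namespace Sl

variable (F : Sl)

/-- first contents of the columns -/
def iniL : List (ℕ × ℕ) :=
  F.enum.map (fun i => (cR (code (F.e1 i).2), cR (code (F.e2 i).2))) ++
    F.tgl.map (fun t => (0, cL t))

/-- last contents of the columns -/
def finL : List (ℕ × ℕ) :=
  F.enum.map (fun i => (cL (code (F.e1 i).1), cL (code (F.e2 i).1))) ++
    F.tgl.map (fun t => (cR t, 0))

/-- the instance -/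
def inst : Tokens × Tokens := (toks F.iniL (cL (code .s)), toks F.finL (cL (code .f)))

/-- the bound for the number of pushes -/
def bound : ℕ := 6 * F.enum.length ^ 2 + 4 * F.enum.length

theorem length_tgl : F.tgl.length = 2 * F.enum.length := by
  unfold tgl
  induction F.enum with
  | nil => rfl
  | cons a l ih => simp [ih]; ring

theorem length_iniL : F.iniL.length = 3 * F.enum.length := by
  simp only [iniL, List.length_append, List.length_map, length_tgl]
  ring

theorem length_finL : F.finL.length = 3 * F.enum.length := by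
  simp only [finL, List.length_append, List.length_map, length_tgl]
  ring

theorem enum_pos : 0 < F.enum.length := by simp [enum]

theorem getD_map' {α β : Type} (l : List α) (h : α → β) (d : α) (d' : β) {c : ℕ}
    (hc : c < l.length) : (l.map h).getD c d' = h (l.getD c d) := by
  rw [List.getD_eq_getElem _ _ (by simpa using hc), List.getD_eq_getElem _ _ hc,
    List.getElem_map]

theorem getD_two {α β γ : Type} (l : List α) (l' : List β) (h : α → γ) (h' : β → γ) (d : α)
    (d' : β) (z : γ) (c : ℕ) : (l.map h ++ l'.map h').getD c z =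
      if c < l.length then h (l.getD c d) else
      if c < l.length + l'.length then h' (l'.getD (c - l.length) d') else z := by
  split_ifs with h1 h2
  · rw [List.getD_append _ _ _ _ (by simpa using h1), getD_map' l h d z h1]
  · rw [List.getD_append_right _ _ _ _ (by simp; omega), List.length_map,
      getD_map' l' h' d' z (by omega)]
  · rw [List.getD_eq_default]
    simp; omega

theorem iniL_getD : (fun c => F.iniL.getD c (0, 0)) = F.lay.ex (fun _ => 0) (fun _ => false) := by
  funext c
  unfold iniL
  rw [getD_two _ _ _ _ .st 0]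
  unfold Lay.ex
  simp only [lay, length_tgl]
  have e : F.enum.length + 2 * F.enum.length = 3 * F.enum.length := by ring
  rw [e]
  simp only [Lay.lw, Lay.rw, if_true, Bool.false_eq_true, if_false]
  rfl

theorem finL_getD : (fun c => F.finL.getD c (0, 0)) = F.lay.ex (fun _ => 2) (fun _ => true) := by
  funext c
  unfold finL
  rw [getD_two _ _ _ _ .st 0]
  unfold Lay.ex
  simp only [lay, length_tgl]
  have e : F.enum.length + 2 * F.enum.length = 3 * F.enum.length := by ring
  rw [e]
  have h20 : ¬ ((2 : ℕ) = 0) := by decide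
  have h21 : ¬ ((2 : ℕ) = 1) := by decide
  simp only [Lay.lw, Lay.rw, if_true, if_neg h20, if_neg h21]
  rfl

theorem isInstance_inst : IsInstance F.inst := by
  have := F.enum_pos
  exact isInstance_toks _ _ (by rw [length_iniL]; omega) (by rw [length_iniL, length_finL])

theorem solution_iff : (∃ w, IsSolution F.inst w ∧ w.length ≤ F.bound) ↔
    F.Wk .s (fun _ => 0) := by
  rw [← lay_main]
  have := F.enum_pos
  refine exists_congr fun w => and_congr ?_ Iff.rfl
  unfold inst
  rw [isSolution_toks _ _ (by rw [length_iniL]; omega) (by rw [length_iniL, length_finL]),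
    iniL_getD, finL_getD, length_iniL]
  rfl

theorem walk_iff_sat (hW : 2 ≤ F.W) (hM : 0 < F.M) (hB : F.B = F.M * F.W)
    (hcl : ∀ i < F.B, F.cl i = i / F.W) (hlt : ∀ i < F.B, (F.lt i).1 < F.n) :
    F.Wk .s (fun _ => 0) ↔ F.Sat := by
  have hB0 : 0 < F.B := by rw [hB]; exact Nat.mul_pos hM (by omega)
  have hW0 : 0 < F.W := by omega
  constructor
  · exact F.sat_of_walk hB0
  rintro ⟨τ, hτ⟩
  choose! j hj1 hj2 hj3 using hτ
  have hclM : ∀ i < F.B, F.cl i < F.M := by
    intro i hi
    rw [hcl i hi]
    rw [hB] at hi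
    exact Nat.div_lt_of_lt_mul (by rwa [Nat.mul_comm])
  -- the position of the chosen literal
  let p : ℕ → ℕ := fun k => j k % F.W
  have hp : ∀ k, p k < F.W := fun k => Nat.mod_lt _ hW0
  have hsw : ∀ k a, a < F.W → Equiv.swap 0 (p k) a < F.W := by
    intro k a ha
    rw [Equiv.swap_apply_def]
    have := hp k
    split_ifs <;> omega
  have hdm : ∀ k a, a < F.W → (k * F.W + a) / F.W = k ∧ (k * F.W + a) % F.W = a := by
    intro k a ha
    constructor
    · rw [Nat.mul_comm, Nat.mul_add_div hW0, Nat.div_eq_of_lt ha, Nat.add_zero]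
    · rw [Nat.mul_comm, Nat.mul_add_mod, Nat.mod_eq_of_lt ha]
  have hkB : ∀ k a, k < F.M → a < F.W → k * F.W + a < F.B := by
    intro k a hk ha
    rw [hB]
    calc k * F.W + a < k * F.W + F.W := by omega
      _ = (k + 1) * F.W := by ring
      _ ≤ F.M * F.W := Nat.mul_le_mul_right _ hk
  refine walk_of_sat (ps := fun i => Equiv.swap 0 (p (i / F.W)) (i % F.W)) (τ := τ) hB0 hW ?_ hlt
    hclM ?_ ?_ ?_
  · intro i hi h
    have h1 : i % F.W = p (i / F.W) := by
      rw [Equiv.swap_apply_def] at h
      split_ifs at h with h2 h3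
      · rw [h2, h]
      · exact h3
      · exact absurd h h2
    have hk : i / F.W < F.M := by rw [← hcl i hi]; exact hclM i hi
    have h2 : j (i / F.W) = i := by
      have h3 := hj2 _ hk
      rw [hcl _ (hj1 _ hk)] at h3
      rw [← Nat.div_add_mod (j (i / F.W)) F.W, h3]
      show F.W * (i / F.W) + p (i / F.W) = i
      rw [← h1]
      exact Nat.div_add_mod _ _
    have h3 := hj3 _ hk
    rw [h2] at h3
    exact h3
  · intro i _
    exact hsw _ _ (Nat.mod_lt _ hW0)
  · intro i hi i' hi' h1 h2
    rw [hcl i hi, hcl i' hi'] at h1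
    simp only [h1] at h2
    have h3 := (Equiv.swap 0 (p (i' / F.W))).injective h2
    rw [← Nat.div_add_mod i F.W, ← Nat.div_add_mod i' F.W, h1, h3]
  · intro k hk t ht
    obtain ⟨h1, h2⟩ := hdm k (Equiv.swap 0 (p k) t) (hsw k t ht)
    refine ⟨k * F.W + Equiv.swap 0 (p k) t, hkB _ _ hk (hsw k t ht), ?_, ?_⟩
    · rw [hcl _ (hkB _ _ hk (hsw k t ht)), h1]
    · simp only [h1, h2, Equiv.swap_apply_self]

end Sl

end Pool.Agent.Lib.MP_e32f22_lc
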