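import Pool.Agent.Lib.MP_e32f22_lc.Main
import Pool.Agent.Lib.CookLevin.Main
import Pool.Agent.Lib.MP_a28c52_lc.Codes

/-!
The slot system of a formula in conjunctive normal form.
-/

namespace Pool.Agent.Lib.MP_e32f22_lc

open Function CookLevin

/-- the common length of the clauses after padding -/
def wd (φ : Cnf) : ℕ := (φ.flatMap fun cl => cl).length + 2

/-- a bound for the variables -/
def nv (φ : Cnf) : ℕ :=
  (φ.flatMap fun cl => cl.flatMap fun l => List.replicate l.1 ()).length + 1

/-- the literal number `t` of the clause `k` after padding -/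
def pl (φ : Cnf) (k t : ℕ) : ℕ × Bool := (φ.getD k []).getD t ((φ.getD k []).getD 0 (0, true))

/-- the slots -/
def slots (φ : Cnf) : List (ℕ × ℕ × Bool) :=
  (List.range φ.length).flatMap fun k => (List.range (wd φ)).map fun t => (k, pl φ k t)

/-- the slot system -/
def sl (φ : Cnf) : Sl where
  n := nv φ
  M := φ.length
  W := wd φ
  B := φ.length * wd φ
  cl := fun i => ((slots φ).getD i (0, 0, true)).1
  lt := fun i => ((slots φ).getD i (0, 0, true)).2

theorem slots_getD (φ : Cnf) {k t : ℕ} (hk : k < φ.length) (ht : t < wd φ) :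
    (slots φ).getD (k * wd φ + t) (0, 0, true) = (k, pl φ k t) := by
  unfold slots
  rw [HerCo.getD_flatMap_range φ.length (wd φ) _ (by simp) k t hk ht]
  rw [List.getD_eq_getElem _ _ (by simpa using ht)]
  simp

theorem slots_getD' (φ : Cnf) {i : ℕ} (hi : i < φ.length * wd φ) :
    (slots φ).getD i (0, 0, true) = (i / wd φ, pl φ (i / wd φ) (i % wd φ)) := by
  have hw : 0 < wd φ := by unfold wd; omega
  have h1 : i / wd φ < φ.length := Nat.div_lt_of_lt_mul (by rwa [Nat.mul_comm])
  have h2 := slots_getD φ h1 (Nat.mod_lt i hw)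
  have h3 : i / wd φ * wd φ + i % wd φ = i := by rw [Nat.mul_comm]; exact Nat.div_add_mod _ _
  rwa [h3] at h2

theorem length_le_wd {φ : Cnf} {cl : List (ℕ × Bool)} (h : cl ∈ φ) : cl.length < wd φ := by
  unfold wd
  have : cl.length ≤ (φ.flatMap fun cl => cl).length := by
    induction φ with
    | nil => simp at h
    | cons a φ ih =>
      rw [List.flatMap_cons, List.length_append]
      rcases List.mem_cons.1 h with rfl | h
      · omega
      · have := ih h; omega
  omega

theorem lt_nv {φ : Cnf} {cl : List (ℕ × Bool)} (h : cl ∈ φ) {l : ℕ × Bool} (hl : l ∈ cl) :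
    l.1 < nv φ := by
  unfold nv
  have h1 : l.1 ≤ (cl.flatMap fun l => List.replicate l.1 ()).length := by
    clear h
    induction cl with
    | nil => simp at hl
    | cons a cl ih =>
      rw [List.flatMap_cons, List.length_append]
      rcases List.mem_cons.1 hl with rfl | hl
      · simp
      · have := ih hl; omega
  have h2 : (cl.flatMap fun l => List.replicate l.1 ()).length ≤
      (φ.flatMap fun cl => cl.flatMap fun l => List.replicate l.1 ()).length := by
    clear h1 hl
    induction φ with
    | nil => simp at h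
    | cons a φ ih =>
      rw [List.flatMap_cons, List.length_append]
      rcases List.mem_cons.1 h with rfl | h
      · omega
      · have := ih h; omega
  omega

theorem pl_mem {φ : Cnf} (hne : ∀ cl ∈ φ, cl ≠ []) {k : ℕ} (hk : k < φ.length) (t : ℕ) :
    pl φ k t ∈ φ.getD k [] := by
  unfold pl
  have h1 : φ.getD k [] ∈ φ := by
    rw [List.getD_eq_getElem _ _ hk]
    exact List.getElem_mem hk
  have h2 := hne _ h1
  have h3 : 0 < (φ.getD k []).length := List.length_pos_iff.2 h2
  by_cases ht : t < (φ.getD k []).length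
  · rw [List.getD_eq_getElem _ _ ht]
    exact List.getElem_mem ht
  · rw [List.getD_eq_default (φ.getD k []) _ (by omega), List.getD_eq_getElem _ _ h3]
    exact List.getElem_mem h3

theorem sl_sat {φ : Cnf} (hne : ∀ cl ∈ φ, cl ≠ []) : (sl φ).Sat ↔ Sat φ := by
  have hw : 0 < wd φ := by unfold wd; omega
  constructor
  · rintro ⟨τ, hτ⟩
    refine ⟨τ, fun cl hcl => ?_⟩
    obtain ⟨k, hk, rfl⟩ := List.getElem_of_mem hcl
    obtain ⟨i, hi, h1, h2⟩ := hτ k hk
    have h3 : (slots φ).getD i (0, 0, true) = _ := slots_getD' φ hi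
    simp only [sl, h3] at h1 h2
    rw [h1] at h2
    refine ⟨_, ?_, h2⟩
    have := pl_mem hne hk (i % wd φ)
    rwa [List.getD_eq_getElem _ _ hk] at this
  · rintro ⟨τ, hτ⟩
    refine ⟨τ, fun k hk => ?_⟩
    have hk' : k < φ.length := hk
    obtain ⟨l, hl, h1⟩ := hτ _ (List.getElem_mem hk')
    obtain ⟨t, ht, rfl⟩ := List.getElem_of_mem hl
    have htw : t < wd φ := ht.trans (length_le_wd (List.getElem_mem hk'))
    refine ⟨k * wd φ + t, ?_, ?_, ?_⟩
    · show k * wd φ + t < φ.length * wd φ
      calc k * wd φ + t < k * wd φ + wd φ := by omega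
        _ = (k + 1) * wd φ := by ring
        _ ≤ φ.length * wd φ := Nat.mul_le_mul_right _ hk'
    · simp only [sl, slots_getD φ hk' htw]
    · simp only [sl, slots_getD φ hk' htw]
      have : pl φ k t = φ[k][t] := by
        unfold pl
        rw [List.getD_eq_getElem _ _ hk', List.getD_eq_getElem _ _ ht]
      rw [this]
      exact h1

theorem sl_walk {φ : Cnf} (h0 : φ ≠ []) (hne : ∀ cl ∈ φ, cl ≠ []) :
    (sl φ).Wk .s (fun _ => 0) ↔ Sat φ := by
  rw [← sl_sat hne]
  refine (sl φ).walk_iff_sat ?_ ?_ rfl ?_ ?_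
  · show 2 ≤ wd φ
    unfold wd; omega
  · exact List.length_pos_iff.2 h0
  · intro i hi
    show ((slots φ).getD i (0, 0, true)).1 = i / wd φ
    rw [slots_getD' φ hi]
  · intro i hi
    show ((slots φ).getD i (0, 0, true)).2.1 < nv φ
    rw [slots_getD' φ hi]
    have hw : 0 < wd φ := by unfold wd; omega
    have h1 : i / wd φ < φ.length := Nat.div_lt_of_lt_mul (by rwa [Nat.mul_comm])
    have h2 := pl_mem hne h1 (i % wd φ)
    rw [List.getD_eq_getElem _ _ h1] at h2
    exact lt_nv (List.getElem_mem h1) h2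

/-- the puzzle has a short solution if and only if the formula is satisfiable -/
theorem puzzle_iff {φ : Cnf} (h0 : φ ≠ []) (hne : ∀ cl ∈ φ, cl ≠ []) :
    (∃ w, IsSolution (sl φ).inst w ∧ w.length ≤ (sl φ).bound) ↔ Sat φ := by
  rw [Sl.solution_iff, sl_walk h0 hne]

end Pool.Agent.Lib.MP_e32f22_lc
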