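import Pool.Agent.Lib.MP_e32f22_lc.Trail

/-!
Satisfiability as a walk problem.
-/

namespace Pool.Agent.Lib.MP_e32f22_lc

open Function

theorem Walk.inv {ι N : Type} [DecidableEq ι] {E : ι → Prop} {e1 e2 : ι → N × N} {fin cur : N}
    {o : ι → ℕ} (h : Walk E e1 e2 fin cur o) :
    (cur = fin ∧ ∀ i, E i → o i = 2) ∨
    (∃ i, E i ∧ o i = 0 ∧ (e1 i).1 = cur ∧ Walk E e1 e2 fin (e1 i).2 (update o i 1)) ∨
    (∃ i, E i ∧ o i = 1 ∧ (e2 i).1 = cur ∧ Walk E e1 e2 fin (e2 i).2 (update o i 2)) := by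
  cases h with
  | done _ h => exact Or.inl ⟨rfl, h⟩
  | fst _ i hi h w => exact Or.inr (Or.inl ⟨i, hi, h, rfl, w⟩)
  | snd _ i hi h w => exact Or.inr (Or.inr ⟨i, hi, h, rfl, w⟩)

/-- The vertices. -/
inductive Nm
  | s
  | f
  | u (y : ℕ)
  | q (x : ℕ) (b : Bool) (i : ℕ)
  deriving DecidableEq

/-- The pairs of edges. -/
inductive Cl
  | st
  | pa (x : ℕ) (b : Bool) (i : ℕ)
  | re (t : ℕ)
  deriving DecidableEq

/-- A formula with `M` clauses with `W` literals each: there are `B` slots, the slot `i` belongs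
to the clause `cl i` and contains the literal `lt i`; the variables are below `n`. -/
structure Sl where
  n : ℕ
  M : ℕ
  W : ℕ
  B : ℕ
  cl : ℕ → ℕ
  lt : ℕ → ℕ × Bool

namespace Sl

variable (F : Sl)

/-- vertices of the paths -/
def nd (x : ℕ) (b : Bool) (i : ℕ) : Nm :=
  if i = 0 then .u x else if i = F.B then .u (x + 1) else .q x b i

/-- the first edges -/
def e1 : Cl → Nm × Nm
  | .st => (.s, .u 0)
  | .pa x b i => (F.nd x b i, F.nd x b (i + 1))
  | .re t => (.u (F.n + F.M), if t = 0 then .u 0 else if t + 1 = F.W then .f else .u F.n)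

/-- the second edges -/
def e2 : Cl → Nm × Nm
  | .st => (.f, .f)
  | .pa x b i => if F.lt i = (x, b) then (.u (F.n + F.cl i), .u (F.n + F.cl i + 1)) else (.f, .f)
  | .re _ => (.f, .f)

/-- the existing pairs -/
def E : Cl → Prop
  | .st => True
  | .pa x _ i => x < F.n ∧ i < F.B
  | .re t => t < F.W

/-- the walks -/
abbrev Wk (cur : Nm) (o : Cl → ℕ) : Prop := Walk F.E F.e1 F.e2 .f cur o

/-- satisfiability -/
def Sat : Prop :=
  ∃ τ : ℕ → Bool, ∀ k < F.M, ∃ i < F.B, F.cl i = k ∧ τ (F.lt i).1 = (F.lt i).2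

theorem e2_fst (i : Cl) : (F.e2 i).1 = .f ∨
    ∃ x b j, i = .pa x b j ∧ F.lt j = (x, b) ∧ F.e2 i = (.u (F.n + F.cl j), .u (F.n + F.cl j + 1)) := by
  cases i with
  | st => left; rfl
  | re t => left; rfl
  | pa x b j =>
    by_cases h : F.lt j = (x, b)
    · right; exact ⟨x, b, j, rfl, h, by simp [e2, h]⟩
    · left; simp [e2, h]

theorem nd_eq_u {x : ℕ} {b : Bool} {i y : ℕ} (hi : i < F.B) (h : F.nd x b i = .u y) :
    i = 0 ∧ x = y := by
  unfold nd at h
  split_ifs at h with h1 h2
  · exact ⟨h1, by simpa using h⟩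
  · omega

theorem nd_eq_q {x x' : ℕ} {b b' : Bool} {i j : ℕ} (h : F.nd x b i = .q x' b' j) :
    x = x' ∧ b = b' ∧ i = j := by
  unfold nd at h
  split_ifs at h with h1 h2
  simpa using h

/-- state of the first pass, inside a path -/
def R (x : ℕ) (b : Bool) (τ : ℕ → Bool) (o : Cl → ℕ) : Prop :=
  ∀ x' b' i', o (.pa x' b' i') ≠ 0 → (x' < x ∧ b' = τ x') ∨ (x' = x ∧ b' = b)

/-- state of the first pass, between two paths -/
def Q (x : ℕ) (τ : ℕ → Bool) (o : Cl → ℕ) : Prop :=
  ∀ x' b' i', o (.pa x' b' i') ≠ 0 → x' < x ∧ b' = τ x'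

theorem R_update {x : ℕ} {b : Bool} {τ : ℕ → Bool} {o : Cl → ℕ} (h : R x b τ o) (i v : ℕ) :
    R x b τ (update o (.pa x b i) v) := by
  intro x' b' i' hne
  by_cases he : (Cl.pa x' b' i') = .pa x b i
  · simp only [Cl.pa.injEq] at he
    exact Or.inr ⟨he.1, he.2.1⟩
  · rw [update_of_ne he] at hne
    exact h _ _ _ hne

theorem vstep {x : ℕ} (hx : x < F.n) {b : Bool} {τ : ℕ → Bool} {i : ℕ} {o : Cl → ℕ}
    (hi : 0 < i) (hiB : i < F.B) (hR : R x b τ o) (h : F.Wk (F.nd x b i) o) :
    ∃ o', R x b τ o' ∧ F.Wk (F.nd x b (i + 1)) o' := by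
  have hq : F.nd x b i = .q x b i := by
    unfold nd
    rw [if_neg (by omega), if_neg (by omega)]
  rw [hq] at h
  rcases h.inv with ⟨h1, _⟩ | ⟨j, hj, _, h1, h2⟩ | ⟨j, hj, _, h1, h2⟩
  · simp at h1
  · cases j with
    | st => simp [e1] at h1
    | re t => simp [e1] at h1
    | pa x' b' i' =>
      obtain ⟨rfl, rfl, rfl⟩ := F.nd_eq_q h1
      exact ⟨_, R_update hR _ _, h2⟩
  · rcases F.e2_fst j with h3 | ⟨x', b', i', rfl, h3, h4⟩
    · rw [h3] at h1; simp at h1
    · rw [h4] at h1; simp at h1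

theorem vpath {x : ℕ} (hx : x < F.n) {b : Bool} {τ : ℕ → Bool} : ∀ (k i : ℕ) (o : Cl → ℕ),
    i + k = F.B → 0 < i → R x b τ o → F.Wk (F.nd x b i) o →
    ∃ o', R x b τ o' ∧ F.Wk (.u (x + 1)) o' := by
  intro k
  induction k with
  | zero =>
    intro i o hk hi hR h
    have : F.nd x b i = .u (x + 1) := by
      unfold nd
      rw [if_neg (by omega), if_pos (by omega)]
    rw [this] at h
    exact ⟨o, hR, h⟩
  | succ k ih =>
    intro i o hk hi hR h
    obtain ⟨o', h1, h2⟩ := F.vstep hx hi (by omega) hR h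
    exact ih (i + 1) o' (by omega) (by omega) h1 h2

theorem vvar (hB : 0 < F.B) {x : ℕ} (hx : x < F.n) {τ : ℕ → Bool} {o : Cl → ℕ}
    (hQ : Q x τ o) (h : F.Wk (.u x) o) :
    ∃ τ' o', Q (x + 1) τ' o' ∧ F.Wk (.u (x + 1)) o' := by
  rcases h.inv with ⟨h1, _⟩ | ⟨j, hj, _, h1, h2⟩ | ⟨j, hj, _, h1, h2⟩
  · simp at h1
  · cases j with
    | st => simp [e1] at h1
    | re t => simp [e1] at h1; omega
    | pa x' b' i' =>
      obtain ⟨rfl, rfl⟩ := F.nd_eq_u hj.2 h1
      have hR : R x' b' τ o := fun a b c hne => Or.inl (hQ a b c hne)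
      obtain ⟨o', h3, h4⟩ := F.vpath hx (b := b') (τ := τ) (F.B - 1) 1 _ (by omega) one_pos
        (R_update hR 0 1) h2
      refine ⟨update τ x' b', o', ?_, h4⟩
      intro a b c hne
      rcases h3 a b c hne with ⟨h5, h6⟩ | ⟨h5, h6⟩
      · exact ⟨by omega, by rw [update_of_ne (by omega)]; exact h6⟩
      · subst h5
        exact ⟨by omega, by simp [h6]⟩
  · rcases F.e2_fst j with h3 | ⟨x', b', i', rfl, h3, h4⟩
    · rw [h3] at h1; simp at h1
    · rw [h4] at h1; simp at h1; omega

theorem vall (hB : 0 < F.B) {τ : ℕ → Bool} {o : Cl → ℕ} (hQ : Q 0 τ o) (h : F.Wk (.u 0) o) :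
    ∀ x ≤ F.n, ∃ τ' o', Q x τ' o' ∧ F.Wk (.u x) o' := by
  intro x
  induction x with
  | zero => intro _; exact ⟨τ, o, hQ, h⟩
  | succ x ih =>
    intro hx
    obtain ⟨τ', o', h1, h2⟩ := ih (by omega)
    exact F.vvar hB (by omega) h1 h2

/-- state of the second pass -/
def C (τ : ℕ → Bool) (o : Cl → ℕ) : Prop := ∀ x b i, o (.pa x b i) ≠ 0 → b = τ x

theorem cstep {k : ℕ} (hk : k < F.M) {τ : ℕ → Bool} {o : Cl → ℕ} (hC : C τ o)
    (h : F.Wk (.u (F.n + k)) o) :
    (∃ i < F.B, F.cl i = k ∧ τ (F.lt i).1 = (F.lt i).2) ∧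
      ∃ o', C τ o' ∧ F.Wk (.u (F.n + k + 1)) o' := by
  rcases h.inv with ⟨h1, _⟩ | ⟨j, hj, _, h1, h2⟩ | ⟨j, hj, ho, h1, h2⟩
  · simp at h1
  · cases j with
    | st => simp [e1] at h1
    | re t => simp [e1] at h1; omega
    | pa x' b' i' =>
      obtain ⟨rfl, h3⟩ := F.nd_eq_u hj.2 h1
      have := hj.1
      omega
  · rcases F.e2_fst j with h3 | ⟨x', b', i', rfl, h3, h4⟩
    · rw [h3] at h1; simp at h1
    · rw [h4] at h1
      simp only [Nm.u.injEq, Nat.add_left_cancel_iff] at h1
      have h5 : b' = τ x' := hC x' b' i' (by omega)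
      refine ⟨⟨i', hj.2, h1, by rw [h3]; exact h5.symm⟩, _, ?_, by rw [h4, h1] at h2; exact h2⟩
      intro a b c hne
      by_cases he : (Cl.pa a b c) = .pa x' b' i'
      · simp only [Cl.pa.injEq] at he
        obtain ⟨rfl, rfl, rfl⟩ := he
        exact h5
      · rw [update_of_ne he] at hne
        exact hC _ _ _ hne

theorem sat_of_walk (hB : 0 < F.B) (h : F.Wk .s (fun _ => 0)) : F.Sat := by
  have h0 : ∃ o, Q 0 (fun _ => true) o ∧ F.Wk (.u 0) o := by
    rcases h.inv with ⟨h1, _⟩ | ⟨j, hj, _, h1, h2⟩ | ⟨j, hj, _, h1, h2⟩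
    · simp at h1
    · cases j with
      | st =>
        refine ⟨_, ?_, h2⟩
        intro a b c hne
        simp at hne
      | re t => simp [e1] at h1
      | pa x' b' i' =>
        simp only [e1, nd] at h1
        split_ifs at h1
    · rcases F.e2_fst j with h3 | ⟨x', b', i', rfl, h3, h4⟩
      · rw [h3] at h1; simp at h1
      · rw [h4] at h1; simp at h1
  obtain ⟨o, h1, h2⟩ := h0
  obtain ⟨τ, o', h3, h4⟩ := F.vall hB h1 h2 F.n le_rfl
  refine ⟨τ, ?_⟩
  have hC : C τ o' := fun a b c hne => (h3 a b c hne).2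
  have : ∀ k ≤ F.M, ∃ o, C τ o ∧ F.Wk (.u (F.n + k)) o := by
    intro k
    induction k with
    | zero => intro _; exact ⟨o', hC, h4⟩
    | succ k ih =>
      intro hk
      obtain ⟨o, h5, h6⟩ := ih (by omega)
      exact (F.cstep (by omega) h5 h6).2
  intro k hk
  obtain ⟨o, h5, h6⟩ := this k hk.le
  exact (F.cstep hk h5 h6).1

/-- an enumeration of the pairs -/
def enum : List Cl :=
  .st :: (((List.range F.n).flatMap fun x => [false, true].flatMap fun b =>
    (List.range F.B).map fun i => Cl.pa x b i) ++ (List.range F.W).map Cl.re)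

theorem mem_enum (i : Cl) : i ∈ F.enum ↔ F.E i := by
  cases i with
  | st => simp [enum, E]
  | re t => simp [enum, E]
  | pa x b i =>
    simp only [enum, E, List.mem_cons, List.mem_append, List.mem_flatMap, List.mem_map,
      List.mem_range, reduceCtorEq, false_or, and_false, exists_false, or_false]
    constructor
    · rintro ⟨x', h1, b', h2, i', h3, h4⟩
      simp only [Cl.pa.injEq] at h4
      obtain ⟨rfl, rfl, rfl⟩ := h4
      exact ⟨h1, h3⟩
    · rintro ⟨h1, h2⟩
      exact ⟨x, h1, b, by cases b <;> simp, i, h2, rfl⟩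

/-- lexicographic order -/
def lx (a b c d : ℕ) : Prop := a < c ∨ (a = c ∧ b < d)

instance (a b c d : ℕ) : Decidable (lx a b c d) := by unfold lx; infer_instance

/-- the numbers of used edges during the walk -/
def O (ps : ℕ → ℕ) (τ : ℕ → Bool) (x₁ i₁ x₂ i₂ t k r : ℕ) : Cl → ℕ
  | .st => 1
  | .pa x b i => if x < F.n ∧ i < F.B then
      (if (b = τ x ∧ lx x i x₁ i₁) ∨ (b ≠ τ x ∧ lx x i x₂ i₂) then 1 else 0) +
      (if F.lt i = (x, b) ∧ lx (ps i) (F.cl i) t k then 1 else 0)
    else 0
  | .re t' => if t' < r ∧ t' < F.W then 1 else 0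

theorem loops {o : Cl → ℕ} (l : List Cl) :
    (∀ i, F.E i → o i = 2 ∨ (o i = 1 ∧ F.e2 i = (.f, .f) ∧ i ∈ l)) → F.Wk .f o := by
  induction l generalizing o with
  | nil =>
    intro h
    refine Walk.done _ fun i hi => ?_
    rcases h i hi with h | h
    · exact h
    · simp at h
  | cons a l ih =>
    intro h
    by_cases ha : F.E a ∧ o a = 1 ∧ F.e2 a = (.f, .f)
    · have h1 := Walk.snd (E := F.E) (e1 := F.e1) (e2 := F.e2) (fin := .f) o a ha.1 ha.2.1 (by
        rw [ha.2.2]
        refine ih fun i hi => ?_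
        by_cases hia : i = a
        · subst hia; left; simp
        · rw [update_of_ne hia]
          rcases h i hi with h2 | ⟨h2, h3, h4⟩
          · exact Or.inl h2
          · right
            refine ⟨h2, h3, ?_⟩
            rcases List.mem_cons.1 h4 with h5 | h5
            · exact absurd h5 hia
            · exact h5)
      rw [ha.2.2] at h1
      exact h1
    · refine ih fun i hi => ?_
      rcases h i hi with h2 | ⟨h2, h3, h4⟩
      · exact Or.inl h2
      · right
        refine ⟨h2, h3, ?_⟩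
        rcases List.mem_cons.1 h4 with h5 | h5
        · subst h5; exact absurd ⟨hi, h2, h3⟩ ha
        · exact h5

section complete

variable {F} {ps : ℕ → ℕ} {τ : ℕ → Bool}

theorem vstep1 {x i : ℕ} (hx : x < F.n) (hi : i < F.B)
    (h : F.Wk (F.nd x (τ x) (i + 1)) (F.O ps τ x (i + 1) 0 0 0 0 0)) :
    F.Wk (F.nd x (τ x) i) (F.O ps τ x i 0 0 0 0 0) := by
  have hE : F.E (.pa x (τ x) i) := ⟨hx, hi⟩
  refine Walk.fst (E := F.E) (e1 := F.e1) (e2 := F.e2) (fin := .f) _ (.pa x (τ x) i) hE ?_ ?_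
  · simp [O, lx]
  · have : update (F.O ps τ x i 0 0 0 0 0) (.pa x (τ x) i) 1 = F.O ps τ x (i + 1) 0 0 0 0 0 := by
      funext j
      by_cases hj : j = .pa x (τ x) i
      · subst hj
        simp [O, lx, hx, hi]
      · rw [update_of_ne hj]
        cases j with
        | st => rfl
        | re t => rfl
        | pa x' b' i' =>
          simp only [O]
          by_cases h0 : x' < F.n ∧ i' < F.B
          · simp only [if_pos h0]
            congr 1
            have h1 : (b' = τ x' ∧ lx x' i' x i ∨ b' ≠ τ x' ∧ lx x' i' 0 0) ↔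
                (b' = τ x' ∧ lx x' i' x (i + 1) ∨ b' ≠ τ x' ∧ lx x' i' 0 0) := by
              simp only [Cl.pa.injEq, not_and] at hj
              unfold lx
              constructor
              · rintro (⟨h2, h3⟩ | ⟨_, h3⟩)
                · left; exact ⟨h2, by omega⟩
                · omega
              · rintro (⟨h2, h3⟩ | ⟨_, h3⟩)
                · left
                  refine ⟨h2, ?_⟩
                  by_cases h4 : x' = x
                  · subst h4
                    have := hj rfl h2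
                    omega
                  · omega
                · omega
            simp only [h1]
          · simp only [if_neg h0]
    exact this ▸ h

theorem vstep2 (h0 : ∀ i < F.B, ps i = 0 → τ (F.lt i).1 = (F.lt i).2) {x i : ℕ} (hx : x < F.n)
    (hi : i < F.B) (h : F.Wk (F.nd x (!τ x) (i + 1)) (F.O ps τ F.n 0 x (i + 1) 0 F.M 1)) :
    F.Wk (F.nd x (!τ x) i) (F.O ps τ F.n 0 x i 0 F.M 1) := by
  have hE : F.E (.pa x (!τ x) i) := ⟨hx, hi⟩
  have hne : (!τ x) ≠ τ x := by cases τ x <;> simp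
  have hl : ¬ (F.lt i = (x, !τ x) ∧ lx (ps i) (F.cl i) 0 F.M) := by
    rintro ⟨h1, h2⟩
    unfold lx at h2
    have h3 := h0 i hi (by omega)
    rw [h1] at h3
    exact hne h3.symm
  refine Walk.fst (E := F.E) (e1 := F.e1) (e2 := F.e2) (fin := .f) _ (.pa x (!τ x) i) hE ?_ ?_
  · simp only [O, if_pos (show x < F.n ∧ i < F.B from ⟨hx, hi⟩), if_neg hl]
    rw [if_neg]
    rintro (⟨h1, _⟩ | ⟨_, h1⟩)
    · exact hne h1
    · unfold lx at h1; omega
  · have : update (F.O ps τ F.n 0 x i 0 F.M 1) (.pa x (!τ x) i) 1 =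
        F.O ps τ F.n 0 x (i + 1) 0 F.M 1 := by
      funext j
      by_cases hj : j = .pa x (!τ x) i
      · subst hj
        rw [update_self]
        simp only [O, if_pos (show x < F.n ∧ i < F.B from ⟨hx, hi⟩), if_neg hl]
        rw [if_pos]
        right
        refine ⟨hne, ?_⟩
        unfold lx; omega
      · rw [update_of_ne hj]
        cases j with
        | st => rfl
        | re t => rfl
        | pa x' b' i' =>
          simp only [O]
          by_cases h0 : x' < F.n ∧ i' < F.B
          · simp only [if_pos h0]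
            congr 1
            have h1 : (b' = τ x' ∧ lx x' i' F.n 0 ∨ b' ≠ τ x' ∧ lx x' i' x i) ↔
                (b' = τ x' ∧ lx x' i' F.n 0 ∨ b' ≠ τ x' ∧ lx x' i' x (i + 1)) := by
              simp only [Cl.pa.injEq, not_and] at hj
              unfold lx
              constructor
              · rintro (⟨h2, h3⟩ | ⟨h2, h3⟩)
                · left; exact ⟨h2, by omega⟩
                · right; exact ⟨h2, by omega⟩
              · rintro (⟨h2, h3⟩ | ⟨h2, h3⟩)
                · left; exact ⟨h2, by omega⟩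
                · right
                  refine ⟨h2, ?_⟩
                  by_cases h4 : x' = x
                  · subst h4
                    have h5 : b' = !τ x' := by
                      revert h2; cases b' <;> cases τ x' <;> simp
                    have := hj rfl h5
                    omega
                  · omega
            simp only [h1]
          · simp only [if_neg h0]
    exact this ▸ h

theorem cstep' (h0 : ∀ i < F.B, ps i = 0 → τ (F.lt i).1 = (F.lt i).2)
    (hlt : ∀ i < F.B, (F.lt i).1 < F.n)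
    (hinj : ∀ i < F.B, ∀ i' < F.B, F.cl i = F.cl i' → ps i = ps i' → i = i')
    {x₂ t k r i : ℕ} (hi : i < F.B) (hk : F.cl i = k) (ht : ps i = t) (hx2 : t = 0 ∨ x₂ = F.n)
    (h : F.Wk (.u (F.n + k + 1)) (F.O ps τ F.n 0 x₂ 0 t (k + 1) r)) :
    F.Wk (.u (F.n + k)) (F.O ps τ F.n 0 x₂ 0 t k r) := by
  obtain ⟨⟨x, b⟩, hxb⟩ : ∃ y, F.lt i = y := ⟨_, rfl⟩
  have hx : x < F.n := by have := hlt i hi; rw [hxb] at this; exact this
  have hE : F.E (.pa x b i) := ⟨hx, hi⟩
  have hb1 : (b = τ x ∧ lx x i F.n 0) ∨ (b ≠ τ x ∧ lx x i x₂ 0) := by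
    by_cases hb : b = τ x
    · left; refine ⟨hb, ?_⟩; unfold lx; omega
    · right
      refine ⟨hb, ?_⟩
      have : t ≠ 0 := by
        intro ht0
        have := h0 i hi (ht.trans ht0)
        rw [hxb] at this
        exact hb this.symm
      unfold lx
      omega
  have he2 : F.e2 (.pa x b i) = (.u (F.n + k), .u (F.n + k + 1)) := by
    simp [e2, hxb, hk]
  have h1 := Walk.snd (E := F.E) (e1 := F.e1) (e2 := F.e2) (fin := .f)
    (F.O ps τ F.n 0 x₂ 0 t k r) (.pa x b i) hE
  rw [he2] at h1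
  refine h1 ?_ ?_
  · simp only [O, if_pos (show x < F.n ∧ i < F.B from ⟨hx, hi⟩), if_pos hb1]
    rw [if_neg]
    rintro ⟨_, h2⟩
    rw [hk, ht] at h2
    unfold lx at h2
    omega
  · have : update (F.O ps τ F.n 0 x₂ 0 t k r) (.pa x b i) 2 =
        F.O ps τ F.n 0 x₂ 0 t (k + 1) r := by
      funext j
      by_cases hj : j = .pa x b i
      · subst hj
        rw [update_self]
        simp only [O, if_pos (show x < F.n ∧ i < F.B from ⟨hx, hi⟩), if_pos hb1]
        rw [if_pos]
        refine ⟨hxb, ?_⟩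
        rw [hk, ht]
        unfold lx; omega
      · rw [update_of_ne hj]
        cases j with
        | st => rfl
        | re t => rfl
        | pa x' b' i' =>
          simp only [O]
          by_cases h0 : x' < F.n ∧ i' < F.B
          · simp only [if_pos h0]
            congr 1
            have h1 : (F.lt i' = (x', b') ∧ lx (ps i') (F.cl i') t k) ↔
                (F.lt i' = (x', b') ∧ lx (ps i') (F.cl i') t (k + 1)) := by
              refine and_congr_right fun h2 => ?_
              unfold lx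
              constructor
              · intro h3; omega
              · intro h3
                by_cases h4 : ps i' = t ∧ F.cl i' = k
                · have h5 := hinj i' h0.2 i hi (by omega) (by omega)
                  subst h5
                  rw [hxb] at h2
                  simp only [Prod.mk.injEq] at h2
                  exact absurd (by rw [h2.1, h2.2]) hj
                · omega
            simp only [h1]
          · simp only [if_neg h0]
    exact this ▸ h

theorem rstep {x₂ t : ℕ} (ht : t < F.W)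
    (h : F.Wk (if t = 0 then .u 0 else if t + 1 = F.W then .f else .u F.n)
      (F.O ps τ F.n 0 x₂ 0 t F.M (t + 1))) :
    F.Wk (.u (F.n + F.M)) (F.O ps τ F.n 0 x₂ 0 t F.M t) := by
  have hE : F.E (.re t) := ht
  refine Walk.fst (E := F.E) (e1 := F.e1) (e2 := F.e2) (fin := .f) _ (.re t) hE ?_ ?_
  · simp [O]
  · have : update (F.O ps τ F.n 0 x₂ 0 t F.M t) (.re t) 1 =
        F.O ps τ F.n 0 x₂ 0 t F.M (t + 1) := by
      funext j
      by_cases hj : j = .re t
      · subst hj
        simp [O, ht]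
      · rw [update_of_ne hj]
        cases j with
        | st => rfl
        | pa x b i => rfl
        | re t' =>
          simp only [Cl.re.injEq] at hj
          simp only [O]
          have : (t' < t ∧ t' < F.W) ↔ (t' < t + 1 ∧ t' < F.W) := by omega
          simp only [this]
    exact this ▸ h

theorem O_carry_i₁ (x i x₂ i₂ t k r : ℕ) (hi : i = F.B) :
    F.O ps τ x i x₂ i₂ t k r = F.O ps τ (x + 1) 0 x₂ i₂ t k r := by
  subst hi
  funext j
  cases j with
  | st => rfl
  | re t => rfl
  | pa x' b' i' =>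
    simp only [O]
    by_cases h0 : x' < F.n ∧ i' < F.B
    · simp only [if_pos h0]
      have : lx x' i' x F.B ↔ lx x' i' (x + 1) 0 := by unfold lx; omega
      simp only [this]
    · simp only [if_neg h0]

theorem O_carry_i₂ (x₁ i₁ x i t k r : ℕ) (hi : i = F.B) :
    F.O ps τ x₁ i₁ x i t k r = F.O ps τ x₁ i₁ (x + 1) 0 t k r := by
  subst hi
  funext j
  cases j with
  | st => rfl
  | re t => rfl
  | pa x' b' i' =>
    simp only [O]
    by_cases h0 : x' < F.n ∧ i' < F.B
    · simp only [if_pos h0]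
      have : lx x' i' x F.B ↔ lx x' i' (x + 1) 0 := by unfold lx; omega
      simp only [this]
    · simp only [if_neg h0]

theorem O_carry_k (hcl : ∀ i < F.B, F.cl i < F.M) (x₁ i₁ x₂ i₂ t r : ℕ) :
    F.O ps τ x₁ i₁ x₂ i₂ t F.M r = F.O ps τ x₁ i₁ x₂ i₂ (t + 1) 0 r := by
  funext j
  cases j with
  | st => rfl
  | re t => rfl
  | pa x' b' i' =>
    simp only [O]
    by_cases h0 : x' < F.n ∧ i' < F.B
    · simp only [if_pos h0]
      have := hcl i' h0.2
      have : lx (ps i') (F.cl i') t F.M ↔ lx (ps i') (F.cl i') (t + 1) 0 := by unfold lx; omega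
      simp only [this]
    · simp only [if_neg h0]

theorem nd_zero (x : ℕ) (b : Bool) : F.nd x b 0 = .u x := by simp [nd]

theorem nd_B (hB : 0 < F.B) (x : ℕ) (b : Bool) : F.nd x b F.B = .u (x + 1) := by
  simp [nd, hB.ne']

theorem vpass1 (hB : 0 < F.B) : ∀ k x, x + k = F.n → F.Wk (.u F.n) (F.O ps τ F.n 0 0 0 0 0 0) →
    F.Wk (.u x) (F.O ps τ x 0 0 0 0 0 0) := by
  intro k
  induction k with
  | zero => intro x hx h; rw [Nat.add_zero] at hx; rw [hx]; exact h
  | succ k ih =>
    intro x hx h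
    have h1 := ih (x + 1) (by omega) h
    have h2 : ∀ l i, i + l = F.B → F.Wk (F.nd x (τ x) i) (F.O ps τ x i 0 0 0 0 0) := by
      intro l
      induction l with
      | zero =>
        intro i hi
        rw [O_carry_i₁ (F := F) x i 0 0 0 0 0 (by omega)]
        have : i = F.B := by omega
        rw [this, nd_B hB]
        exact h1
      | succ l ihl =>
        intro i hi
        exact vstep1 (by omega) (by omega) (ihl (i + 1) (by omega))
    have h3 := h2 F.B 0 (by omega)
    rwa [nd_zero] at h3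

theorem vpass2 (hB : 0 < F.B) (h0 : ∀ i < F.B, ps i = 0 → τ (F.lt i).1 = (F.lt i).2) :
    ∀ k x, x + k = F.n → F.Wk (.u F.n) (F.O ps τ F.n 0 F.n 0 0 F.M 1) →
    F.Wk (.u x) (F.O ps τ F.n 0 x 0 0 F.M 1) := by
  intro k
  induction k with
  | zero => intro x hx h; rw [Nat.add_zero] at hx; rw [hx]; exact h
  | succ k ih =>
    intro x hx h
    have h1 := ih (x + 1) (by omega) h
    have h2 : ∀ l i, i + l = F.B → F.Wk (F.nd x (!τ x) i) (F.O ps τ F.n 0 x i 0 F.M 1) := by
      intro l
      induction l with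
      | zero =>
        intro i hi
        rw [O_carry_i₂ (F := F) F.n 0 x i 0 F.M 1 (by omega)]
        have : i = F.B := by omega
        rw [this, nd_B hB]
        exact h1
      | succ l ihl =>
        intro i hi
        exact vstep2 h0 (by omega) (by omega) (ihl (i + 1) (by omega))
    have h3 := h2 F.B 0 (by omega)
    rwa [nd_zero] at h3

theorem cpass (h0 : ∀ i < F.B, ps i = 0 → τ (F.lt i).1 = (F.lt i).2)
    (hlt : ∀ i < F.B, (F.lt i).1 < F.n)
    (hinj : ∀ i < F.B, ∀ i' < F.B, F.cl i = F.cl i' → ps i = ps i' → i = i')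
    (hsur : ∀ k < F.M, ∀ t < F.W, ∃ i < F.B, F.cl i = k ∧ ps i = t)
    {x₂ t r : ℕ} (ht : t < F.W) (hx2 : t = 0 ∨ x₂ = F.n)
    (h : F.Wk (.u (F.n + F.M)) (F.O ps τ F.n 0 x₂ 0 t F.M r)) :
    F.Wk (.u F.n) (F.O ps τ F.n 0 x₂ 0 t 0 r) := by
  have h2 : ∀ l k, k + l = F.M → F.Wk (.u (F.n + k)) (F.O ps τ F.n 0 x₂ 0 t k r) := by
    intro l
    induction l with
    | zero => intro k hk; rw [Nat.add_zero] at hk; rw [hk]; exact h
    | succ l ih =>
      intro k hk
      obtain ⟨i, h3, h4, h5⟩ := hsur k (by omega) t ht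
      exact cstep' h0 hlt hinj h3 h4 h5 hx2 (ih (k + 1) (by omega))
  exact h2 F.M 0 (by omega)

theorem walk_of_sat (hB : 0 < F.B) (hW : 2 ≤ F.W)
    (h0 : ∀ i < F.B, ps i = 0 → τ (F.lt i).1 = (F.lt i).2)
    (hlt : ∀ i < F.B, (F.lt i).1 < F.n) (hcl : ∀ i < F.B, F.cl i < F.M)
    (hps : ∀ i < F.B, ps i < F.W)
    (hinj : ∀ i < F.B, ∀ i' < F.B, F.cl i = F.cl i' → ps i = ps i' → i = i')
    (hsur : ∀ k < F.M, ∀ t < F.W, ∃ i < F.B, F.cl i = k ∧ ps i = t) :
    F.Wk .s (fun _ => 0) := by
  -- the final loops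
  have hf : F.Wk .f (F.O ps τ F.n 0 F.n 0 F.W 0 F.W) := by
    refine F.loops F.enum fun i hi => ?_
    cases i with
    | st => right; exact ⟨rfl, rfl, (F.mem_enum _).2 hi⟩
    | re t =>
      right
      refine ⟨?_, rfl, (F.mem_enum _).2 hi⟩
      have : t < F.W := hi
      simp [O, this]
    | pa x b i =>
      obtain ⟨hx, hi'⟩ := hi
      have h1 : (b = τ x ∧ lx x i F.n 0) ∨ (b ≠ τ x ∧ lx x i F.n 0) := by
        have : lx x i F.n 0 := by unfold lx; omega
        by_cases hb : b = τ x
        · exact Or.inl ⟨hb, this⟩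
        · exact Or.inr ⟨hb, this⟩
      simp only [O, if_pos (show x < F.n ∧ i < F.B from ⟨hx, hi'⟩), if_pos h1]
      by_cases hl : F.lt i = (x, b)
      · left
        rw [if_pos]
        refine ⟨hl, ?_⟩
        have := hps i hi'
        unfold lx; omega
      · right
        refine ⟨?_, by simp [e2, hl], (F.mem_enum _).2 ⟨hx, hi'⟩⟩
        rw [if_neg]
        rintro ⟨h2, _⟩
        exact hl h2
  -- the passes after the first one
  have hlate : ∀ l t, 1 ≤ t → t + l + 1 = F.W →
      F.Wk (.u F.n) (F.O ps τ F.n 0 F.n 0 t 0 t) := by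
    intro l
    induction l with
    | zero =>
      intro t ht hl
      refine cpass h0 hlt hinj hsur (by omega) (Or.inr rfl) (rstep (by omega) ?_)
      rw [if_neg (by omega), if_pos (by omega), O_carry_k hcl]
      have : t + 1 = F.W := by omega
      rw [this]
      exact hf
    | succ l ih =>
      intro t ht hl
      refine cpass h0 hlt hinj hsur (by omega) (Or.inr rfl) (rstep (by omega) ?_)
      rw [if_neg (by omega), if_neg (by omega), O_carry_k hcl]
      exact ih (t + 1) (by omega) (by omega)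
  have h1 := hlate (F.W - 2) 1 le_rfl (by omega)
  have h2 : F.Wk (.u F.n) (F.O ps τ F.n 0 F.n 0 0 F.M 1) := by
    rw [O_carry_k hcl]; exact h1
  have h3 := vpass2 hB h0 F.n 0 (by omega) h2
  have h4 : F.Wk (.u F.n) (F.O ps τ F.n 0 0 0 0 0 0) := by
    refine cpass h0 hlt hinj hsur (by omega) (Or.inl rfl) (rstep (by omega) ?_)
    rw [if_pos rfl]
    exact h3
  have h5 := vpass1 hB F.n 0 (by omega) h4
  refine Walk.fst (E := F.E) (e1 := F.e1) (e2 := F.e2) (fin := .f) (fun _ => 0) .st trivial rfl ?_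
  have : update (fun _ => 0) Cl.st 1 = F.O ps τ 0 0 0 0 0 0 0 := by
    funext j
    by_cases hj : j = .st
    · subst hj; simp [O]
    · rw [update_of_ne hj]
      cases j with
      | st => exact absurd rfl hj
      | re t => simp [O]
      | pa x b i => simp [O, lx]
  exact this ▸ h5

end complete

end Sl

end Pool.Agent.Lib.MP_e32f22_lc
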