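import Pool.Agent.Lib.MP_e32f22_lc.Defs

/-!
Two full rows of width `w` and one extra token: the effect of the pushes.
-/

namespace Pool.Agent.Lib.MP_e32f22_lc

/-- A state: is the extra token on the top, its column, its label, and the labels of the two
tokens in every column that are not the extra one, from bottom to top. -/
@[ext]
structure St where
  top : Bool
  j : ℕ
  e : ℕ
  P : ℕ → ℕ × ℕ

/-- The effect of a push. -/
def stp (w : ℕ) (s : St) : Dir → St
  | (false, false) => if 0 < s.j then ⟨s.top, s.j - 1, s.e, s.P⟩ else s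
  | (false, true) => if s.j + 1 < w then ⟨s.top, s.j + 1, s.e, s.P⟩ else s
  | (true, false) =>
    if s.top = true then s
    else ⟨true, s.j, (s.P s.j).2, Function.update s.P s.j (s.e, (s.P s.j).1)⟩
  | (true, true) =>
    if s.top = true then ⟨false, s.j, (s.P s.j).1, Function.update s.P s.j ((s.P s.j).2, s.e)⟩
    else s

/-- The row of the extra token. -/
def hr (s : St) : ℤ := if s.top = true then 2 else 0

/-- The configuration of a state. -/
def cfg (w : ℕ) (s : St) : Config := fun p =>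
  if 0 ≤ p.1 ∧ p.1 < w then
    (if p.2 = 2 - hr s then some (if s.top = true then (s.P p.1.toNat).1 else (s.P p.1.toNat).2)
    else if p.2 = 1 then some (if s.top = true then (s.P p.1.toNat).2 else (s.P p.1.toNat).1)
    else if p.2 = hr s ∧ p.1 = s.j then some s.e
    else none)
  else none

theorem hr_cases (s : St) : (s.top = true ∧ hr s = 2) ∨ (s.top = false ∧ hr s = 0) := by
  unfold hr
  cases s.top <;> simp

theorem cfg_ne_none {w : ℕ} {s : St} {x y : ℤ} : cfg w s (x, y) ≠ none ↔
    (0 ≤ x ∧ x < w) ∧ (y = 2 - hr s ∨ y = 1 ∨ (y = hr s ∧ x = s.j)) := by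
  unfold cfg
  simp only
  split_ifs with h1 h2 h3 h4 <;> simp_all

theorem cfg_eq_none {w : ℕ} {s : St} {x y : ℤ} : cfg w s (x, y) = none ↔
    ¬ ((0 ≤ x ∧ x < w) ∧ (y = 2 - hr s ∨ y = 1 ∨ (y = hr s ∧ x = s.j))) := by
  rw [← cfg_ne_none]; simp

theorem inBox_cfg {w : ℕ} {s : St} (hj : s.j < w) {x y : ℤ} : InBox (cfg w s) (x, y) ↔
    (0 ≤ x ∧ x < w) ∧ (0 ≤ y ∧ y ≤ 2) := by
  have hh := hr_cases s
  constructor
  · rintro ⟨⟨⟨a, b⟩, h1, h1'⟩, ⟨⟨c, d⟩, h2, h2'⟩, ⟨⟨e, f⟩, h3, h3'⟩, ⟨⟨g, h⟩, h4, h4'⟩⟩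
    rw [cfg_ne_none] at h1 h2 h3 h4
    simp only at *
    omega
  · rintro ⟨h1, h2⟩
    refine ⟨⟨(0, 1), cfg_ne_none.2 ?_, ?_⟩, ⟨((w : ℤ) - 1, 1), cfg_ne_none.2 ?_, ?_⟩,
      ⟨((s.j : ℤ), 0), cfg_ne_none.2 ?_, ?_⟩, ⟨((s.j : ℤ), 2), cfg_ne_none.2 ?_, ?_⟩⟩ <;> omega

theorem smul_vec (n : ℕ) (a b : ℤ) : n • ((a, b) : ℤ × ℤ) = (n * a, n * b) := by
  ext <;> simp

theorem moves_left {w : ℕ} {s : St} (hj : s.j < w) {x y : ℤ} :
    Moves (cfg w s) (-1, 0) (x, y) ↔ x = s.j ∧ y = hr s ∧ 0 < s.j := by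
  have hh := hr_cases s
  unfold Moves
  rw [cfg_ne_none]
  constructor
  · rintro ⟨h1, n, hn, h2, h3⟩
    rw [smul_vec, Prod.mk_add_mk, inBox_cfg hj] at h2
    rw [smul_vec, Prod.mk_add_mk, cfg_eq_none] at h3
    omega
  · rintro ⟨h1, h2, h3⟩
    refine ⟨by omega, 1, one_pos, ?_, ?_⟩
    · rw [smul_vec, Prod.mk_add_mk, inBox_cfg hj]
      omega
    · rw [smul_vec, Prod.mk_add_mk, cfg_eq_none]
      omega

theorem moves_right {w : ℕ} {s : St} (hj : s.j < w) {x y : ℤ} :
    Moves (cfg w s) (1, 0) (x, y) ↔ x = s.j ∧ y = hr s ∧ s.j + 1 < w := by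
  have hh := hr_cases s
  unfold Moves
  rw [cfg_ne_none]
  constructor
  · rintro ⟨h1, n, hn, h2, h3⟩
    rw [smul_vec, Prod.mk_add_mk, inBox_cfg hj] at h2
    rw [smul_vec, Prod.mk_add_mk, cfg_eq_none] at h3
    omega
  · rintro ⟨h1, h2, h3⟩
    refine ⟨by omega, 1, one_pos, ?_, ?_⟩
    · rw [smul_vec, Prod.mk_add_mk, inBox_cfg hj]
      omega
    · rw [smul_vec, Prod.mk_add_mk, cfg_eq_none]
      omega

theorem moves_up {w : ℕ} {s : St} (hj : s.j < w) {x y : ℤ} :
    Moves (cfg w s) (0, 1) (x, y) ↔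
      (0 ≤ x ∧ x < w) ∧ x ≠ s.j ∧ s.top = true ∧ (y = 0 ∨ y = 1) := by
  have hh := hr_cases s
  unfold Moves
  rw [cfg_ne_none]
  constructor
  · rintro ⟨h1, n, hn, h2, h3⟩
    rw [smul_vec, Prod.mk_add_mk, inBox_cfg hj] at h2
    rw [smul_vec, Prod.mk_add_mk, cfg_eq_none] at h3
    refine ⟨by omega, ?_, ?_, ?_⟩
    · omega
    · rcases hh with hh | hh
      · exact hh.1
      · omega
    · omega
  · rintro ⟨h1, h2, h3, h4⟩
    have h5 : hr s = 2 := by simp [hr, h3]
    refine ⟨by omega, (2 - y).toNat, by omega, ?_, ?_⟩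
    · rw [smul_vec, Prod.mk_add_mk, inBox_cfg hj]
      omega
    · rw [smul_vec, Prod.mk_add_mk, cfg_eq_none]
      omega

theorem moves_down {w : ℕ} {s : St} (hj : s.j < w) {x y : ℤ} :
    Moves (cfg w s) (0, -1) (x, y) ↔
      (0 ≤ x ∧ x < w) ∧ x ≠ s.j ∧ s.top = false ∧ (y = 1 ∨ y = 2) := by
  have hh := hr_cases s
  unfold Moves
  rw [cfg_ne_none]
  constructor
  · rintro ⟨h1, n, hn, h2, h3⟩
    rw [smul_vec, Prod.mk_add_mk, inBox_cfg hj] at h2
    rw [smul_vec, Prod.mk_add_mk, cfg_eq_none] at h3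
    refine ⟨by omega, ?_, ?_, ?_⟩
    · omega
    · rcases hh with hh | hh
      · omega
      · exact hh.1
    · omega
  · rintro ⟨h1, h2, h3, h4⟩
    have h5 : hr s = 0 := by simp [hr, h3]
    refine ⟨by omega, y.toNat, by omega, ?_, ?_⟩
    · rw [smul_vec, Prod.mk_add_mk, inBox_cfg hj]
      omega
    · rw [smul_vec, Prod.mk_add_mk, cfg_eq_none]
      omega

open Classical in
theorem push_apply (c : Config) (d : Dir) (x y : ℤ) : push c d (x, y) =
    if Moves c (vec d) (x - (vec d).1, y - (vec d).2) then c (x - (vec d).1, y - (vec d).2)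
    else if Moves c (vec d) (x, y) then none
    else c (x, y) := rfl

theorem cfg_apply (w : ℕ) (s : St) (x y : ℤ) : cfg w s (x, y) =
    if 0 ≤ x ∧ x < w then
    (if y = 2 - hr s then some (if s.top = true then (s.P x.toNat).1 else (s.P x.toNat).2)
    else if y = 1 then some (if s.top = true then (s.P x.toNat).2 else (s.P x.toNat).1)
    else if y = hr s ∧ x = s.j then some s.e
    else none)
  else none := rfl

theorem push_cfg {w : ℕ} {s : St} (hj : s.j < w) (d : Dir) :
    push (cfg w s) d = cfg w (stp w s d) := by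
  obtain ⟨t, j, e, P⟩ := s
  simp only at hj
  funext ⟨x, y⟩
  rw [push_apply]
  rcases d with ⟨_ | _, _ | _⟩
  · -- left
    simp only [vec, stp, moves_left (s := ⟨t, j, e, P⟩) hj]
    by_cases h0 : 0 < j
    · simp only [h0, and_true, if_true, cfg_apply, hr]
      cases t <;> simp <;> split_ifs <;> first | rfl | (exfalso; omega)
    · simp only [h0, and_false, if_false]
  · -- right
    simp only [vec, stp, moves_right (s := ⟨t, j, e, P⟩) hj]
    by_cases h0 : j + 1 < w
    · simp only [h0, and_true, if_true, cfg_apply, hr]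
      cases t <;> simp <;> split_ifs <;> first | rfl | (exfalso; omega)
    · simp only [h0, and_false, if_false]
  · -- down
    simp only [vec, stp, moves_down (s := ⟨t, j, e, P⟩) hj]
    cases t with
    | true => simp
    | false =>
      simp only [Bool.false_eq_true, if_false, cfg_apply, hr, if_true]
      by_cases hx : x = j
      · subst hx
        simp only [Int.toNat_natCast, Function.update_self, ne_eq, not_true, false_and, and_false,
          if_false, sub_zero, sub_neg_eq_add, and_true, true_and]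
        split_ifs <;> first | rfl | (exfalso; omega)
      · by_cases h0 : 0 ≤ x
        · have h1 : x.toNat ≠ j := by omega
          simp only [Function.update_of_ne h1]
          simp only [sub_zero, sub_neg_eq_add, true_and]
          split_ifs <;> first | rfl | (exfalso; omega)
        · simp only [sub_zero, sub_neg_eq_add]
          split_ifs <;> first | rfl | (exfalso; omega)
  · -- up
    simp only [vec, stp, moves_up (s := ⟨t, j, e, P⟩) hj]
    cases t with
    | false => simp
    | true =>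
      simp only [Bool.false_eq_true, if_false, cfg_apply, hr, if_true]
      by_cases hx : x = j
      · subst hx
        simp only [Int.toNat_natCast, Function.update_self, ne_eq, not_true, false_and, and_false,
          if_false, sub_zero, sub_neg_eq_add, and_true, true_and]
        split_ifs <;> first | rfl | (exfalso; omega)
      · by_cases h0 : 0 ≤ x
        · have h1 : x.toNat ≠ j := by omega
          simp only [Function.update_of_ne h1]
          simp only [sub_zero, true_and]
          split_ifs <;> first | rfl | (exfalso; omega)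
        · simp only [sub_zero]
          split_ifs <;> first | rfl | (exfalso; omega)

theorem stp_j {w : ℕ} {s : St} (hj : s.j < w) (d : Dir) : (stp w s d).j < w := by
  rcases d with ⟨_ | _, _ | _⟩ <;> simp only [stp] <;> split_ifs <;> (try simp only) <;> omega

theorem pushes_cfg {w : ℕ} (l : List Dir) {s : St} (hj : s.j < w) :
    pushes (cfg w s) l = cfg w (l.foldl (stp w) s) := by
  induction l generalizing s with
  | nil => rfl
  | cons d l ih =>
    show pushes (push (cfg w s) d) l = _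
    rw [push_cfg hj, ih (stp_j hj d)]
    rfl

/-- translates of configurations of states are equal -/
theorem transEq_cfg {w : ℕ} {s s' : St} (hj : s.j < w) (hj' : s'.j < w)
    (h : TransEq (cfg w s) (cfg w s')) : cfg w s' = cfg w s := by
  obtain ⟨⟨a, b⟩, h⟩ := h
  have hbox : ∀ x y, InBox (cfg w s') (x + a, y + b) ↔ InBox (cfg w s) (x, y) := by
    intro x y
    unfold InBox
    have e : ∀ Q : ℤ × ℤ → Prop, (∃ q, cfg w s' q ≠ none ∧ Q q) ↔
        (∃ q, cfg w s q ≠ none ∧ Q (q + (a, b))) := by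
      intro Q
      constructor
      · rintro ⟨q, h1, h2⟩
        refine ⟨q - (a, b), ?_, by simpa using h2⟩
        rw [← h]
        simpa using h1
      · rintro ⟨q, h1, h2⟩
        refine ⟨q + (a, b), ?_, h2⟩
        rw [h]
        exact h1
    simp only [e, Prod.fst_add, Prod.snd_add, add_le_add_iff_right]
  have h1 := hbox 0 0
  have h2 := hbox (-a) (-b)
  have h3 : a = 0 ∧ b = 0 := by
    rw [inBox_cfg hj', inBox_cfg hj] at h1 h2
    have h4 := hbox ((w : ℤ) - 1) 2
    have h5 := hbox ((w : ℤ) - 1 - a) (2 - b)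
    rw [inBox_cfg hj', inBox_cfg hj] at h4 h5
    omega
  obtain ⟨rfl, rfl⟩ := h3
  funext p
  have h5 := h p
  have h6 : p + ((0 : ℤ), (0 : ℤ)) = p := add_zero p
  rwa [h6] at h5

theorem cfg_inj {w : ℕ} {s s' : St} (hw : 1 < w) (hj : s.j < w) (hj' : s'.j < w)
    (hP : ∀ c, w ≤ c → s.P c = s'.P c) (h : cfg w s = cfg w s') : s = s' := by
  have hne : ∀ x y, (cfg w s (x, y) ≠ none ↔ cfg w s' (x, y) ≠ none) := fun x y => by rw [h]
  simp only [cfg_ne_none] at hne
  have hh := hr_cases s
  have hh' := hr_cases s'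
  have h1 : hr s = hr s' ∧ s.j = s'.j := by
    have h0 := hne 0 (2 - hr s')
    have h1 := hne 1 (2 - hr s')
    have h2 := hne s.j (hr s)
    omega
  have htop : s.top = s'.top := by
    rcases hh with hh | hh <;> rcases hh' with hh' | hh'
    · rw [hh.1, hh'.1]
    · omega
    · omega
    · rw [hh.1, hh'.1]
  obtain ⟨t, j, e, P⟩ := s
  obtain ⟨t', j', e', P'⟩ := s'
  simp only at *
  obtain ⟨h1, rfl⟩ := h1
  subst htop
  have hv : ∀ x y, cfg w ⟨t, j, e, P⟩ (x, y) = cfg w ⟨t, j, e', P'⟩ (x, y) := fun x y => by rw [h]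
  simp only [cfg_apply, hr] at hv
  have he : e = e' := by
    have h2 := hv j (if t = true then 2 else 0)
    have h3 : (0 : ℤ) ≤ (j : ℤ) ∧ (j : ℤ) < (w : ℤ) := by omega
    cases t <;> simpa [h3] using h2
  subst he
  congr
  funext c
  by_cases hc : c < w
  · have h3 : (0 : ℤ) ≤ (c : ℤ) ∧ (c : ℤ) < (w : ℤ) := by omega
    have h4 := hv c (2 - (if t = true then 2 else 0))
    have h5 := hv c 1
    cases t
    · simp [h3] at h4 h5
      exact Prod.ext h5 h4
    · simp [h3] at h4 h5
      exact Prod.ext h4 h5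
  · exact hP c (by omega)

end Pool.Agent.Lib.MP_e32f22_lc
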