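import Pool.Agent.Lib.MP_e32f22_lc.Inst

/-!
Instances given by lists of tokens.
-/

namespace Pool.Agent.Lib.MP_e32f22_lc

open Function

/-- The tokens of a three-row configuration with the extra token on the top of the first column. -/
def toks (L : List (ℕ × ℕ)) (e : ℕ) : Tokens :=
  ((0, 2), e) :: (List.range L.length).flatMap fun c : ℕ =>
    [(((c : ℤ), 0), (L.getD c (0, 0)).1), (((c : ℤ), 1), (L.getD c (0, 0)).2)]

theorem lookup_cons' {β : Type} (a b x y : ℤ) (v : β) (l : List ((ℤ × ℤ) × β)) :
    (((a, b), v) :: l).lookup (x, y) = if x = a ∧ y = b then some v else l.lookup (x, y) := by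
  rw [List.lookup_cons]
  by_cases h : x = a ∧ y = b
  · rw [if_pos h, h.1, h.2, beq_self_eq_true]
  · rw [if_neg h]
    have : ((x, y) == (a, b)) = false := by
      rw [beq_eq_false_iff_ne]
      intro h'
      exact h (by simpa using h')
    rw [this]

theorem lookup_flatMap (f : ℕ → ℕ × ℕ) (n : ℕ) (x y : ℤ) :
    ((List.range n).flatMap fun c : ℕ => [(((c : ℤ), (0 : ℤ)), (f c).1), (((c : ℤ), 1), (f c).2)]).lookup
      (x, y) = if 0 ≤ x ∧ x < n then
        (if y = 0 then some (f x.toNat).1 else if y = 1 then some (f x.toNat).2 else none)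
      else none := by
  induction n with
  | zero =>
    rw [if_neg (by omega)]
    rfl
  | succ n ih =>
    rw [List.range_succ, List.flatMap_append, List.lookup_append, ih]
    simp only [List.flatMap_cons, List.flatMap_nil, List.append_nil, lookup_cons', List.lookup_nil]
    by_cases hx : x = n
    · subst hx
      have h1 : ¬ (0 ≤ (n : ℤ) ∧ (n : ℤ) < n) := by omega
      have h2 : 0 ≤ (n : ℤ) ∧ (n : ℤ) < ((n + 1 : ℕ) : ℤ) := by omega
      rw [if_neg h1, if_pos h2]
      simp
    · have h1 : (0 ≤ x ∧ x < ((n + 1 : ℕ) : ℤ)) ↔ (0 ≤ x ∧ x < (n : ℤ)) := by omega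
      simp only [h1, hx, false_and, if_false, Option.or_none]

theorem place_toks (L : List (ℕ × ℕ)) (e : ℕ) (hL : 0 < L.length) :
    place (toks L e) = cfg L.length ⟨true, 0, e, fun c => L.getD c (0, 0)⟩ := by
  funext ⟨x, y⟩
  unfold place toks
  rw [lookup_cons', lookup_flatMap (fun c => L.getD c (0, 0)), cfg_apply]
  simp only [hr, if_true]
  norm_num
  by_cases h : x = 0 ∧ y = 2
  · rw [if_pos h, if_pos (by omega), if_neg (by omega), if_neg (by omega), if_pos (by omega)]
  · rw [if_neg h]
    by_cases hx : 0 ≤ x ∧ x < L.length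
    · simp only [if_pos hx]
      by_cases h2 : y = 2 ∧ x = 0
      · exact absurd ⟨h2.2, h2.1⟩ h
      · simp only [if_neg h2]
    · simp only [if_neg hx]

theorem nodup_toks (L : List (ℕ × ℕ)) (e : ℕ) : ((toks L e).map Prod.fst).Nodup := by
  unfold toks
  rw [List.map_cons, List.nodup_cons, List.map_flatMap]
  constructor
  · simp only [List.mem_flatMap, List.map_cons, List.map_nil, List.mem_cons, List.not_mem_nil,
      or_false, Prod.mk.injEq, not_exists, not_and]
    intro c _
    omega
  · rw [List.nodup_flatMap]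
    constructor
    · intro c _
      simp
    · refine List.Pairwise.imp ?_ List.nodup_range
      intro c c' hc
      rw [onFun, List.disjoint_left]
      intro a h1 h2
      simp only [List.map_cons, List.map_nil, List.mem_cons, List.not_mem_nil, or_false] at h1 h2
      rcases h1 with rfl | rfl <;> rcases h2 with h2 | h2 <;> simp at h2 <;> exact hc h2

theorem finite_cfg (w : ℕ) (s : St) : {p | cfg w s p ≠ none}.Finite := by
  refine Set.Finite.subset ((Set.finite_Icc (0 : ℤ) w).prod (Set.finite_Icc (-3 : ℤ) 3)) ?_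
  rintro ⟨x, y⟩ h
  have h1 := cfg_ne_none.1 h
  have h2 := hr_cases s
  simp only [Set.mem_prod, Set.mem_Icc]
  omega

theorem transEq_refl (c : Config) : TransEq c c := ⟨0, fun p => by rw [add_zero]⟩

theorem canonical_cfg {w : ℕ} (hw : 0 < w) (e : ℕ) (P : ℕ → ℕ × ℕ) :
    Canonical (cfg w ⟨true, 0, e, P⟩) := by
  constructor
  · rw [push_cfg hw]
    exact transEq_refl _
  · rw [push_cfg hw]
    exact transEq_refl _

theorem compact_cfg {w : ℕ} (hw : 0 < w) (e : ℕ) (P : ℕ → ℕ × ℕ) :
    Compact (cfg w ⟨true, 0, e, P⟩) :=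
  ⟨_, [], finite_cfg _ _, canonical_cfg hw e P, transEq_refl _⟩

theorem sameShape_cfg (w e e' : ℕ) (P P' : ℕ → ℕ × ℕ) :
    SameShape (cfg w ⟨true, 0, e, P⟩) (cfg w ⟨true, 0, e', P'⟩) := by
  refine ⟨0, fun p => ?_⟩
  rw [add_zero]
  obtain ⟨x, y⟩ := p
  rw [cfg_eq_none, cfg_eq_none]
  rfl

theorem isInstance_toks {L L' : List (ℕ × ℕ)} (e e' : ℕ) (hL : 0 < L.length)
    (hLL : L'.length = L.length) : IsInstance (toks L e, toks L' e') := by
  refine ⟨nodup_toks _ _, nodup_toks _ _, ?_, ?_, ?_⟩
  · rw [place_toks _ _ hL]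
    exact compact_cfg hL _ _
  · rw [place_toks _ _ (by omega)]
    exact compact_cfg (by omega) _ _
  · rw [place_toks _ _ hL, place_toks _ _ (by omega), hLL]
    exact sameShape_cfg _ _ _ _ _

theorem foldl_P {w : ℕ} (l : List Dir) : ∀ s : St, s.j < w → ∀ c, w ≤ c →
    (l.foldl (stp w) s).P c = s.P c := by
  induction l with
  | nil => intro s _ c _; rfl
  | cons d l ih =>
    intro s hj c hc
    rw [List.foldl_cons, ih _ (stp_j hj d) c hc]
    have : c ≠ s.j := by omega
    rcases d with ⟨_ | _, _ | _⟩ <;> simp only [stp] <;> split_ifs <;>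
      simp [update_of_ne this]

theorem foldl_j {w : ℕ} (l : List Dir) : ∀ s : St, s.j < w → (l.foldl (stp w) s).j < w := by
  induction l with
  | nil => intro s h; exact h
  | cons d l ih => intro s hj; exact ih _ (stp_j hj d)

theorem isSolution_toks {L L' : List (ℕ × ℕ)} (e e' : ℕ) (hL : 1 < L.length)
    (hLL : L'.length = L.length) (l : List Dir) :
    IsSolution (toks L e, toks L' e') l ↔
      l.foldl (stp L.length) ⟨true, 0, e, fun c => L.getD c (0, 0)⟩ =
        ⟨true, 0, e', fun c => L'.getD c (0, 0)⟩ := by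
  unfold IsSolution
  simp only
  rw [place_toks _ _ (by omega), place_toks _ _ (by omega), hLL]
  rw [pushes_cfg l (by simp only; omega)]
  constructor
  · intro h
    have hj := foldl_j l ⟨true, 0, e, fun c => L.getD c (0, 0)⟩ (w := L.length) (by simp only; omega)
    have h1 := transEq_cfg hj (by simp only; omega) h
    refine (cfg_inj hL (by simp only; omega) hj ?_ h1).symm
    intro c hc
    rw [foldl_P l _ (by simp only; omega) c hc]
    simp only
    rw [List.getD_eq_default _ _ (by omega), List.getD_eq_default _ _ hc]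
  · intro h
    rw [h]
    exact transEq_refl _

end Pool.Agent.Lib.MP_e32f22_lc
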