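import Pool.Agent.Lib.MP_e32f22_lc.Shape

/-!
Tight solutions of the three-row puzzle are walks that use all edges, every pair of locked edges
in order.
-/

namespace Pool.Agent.Lib.MP_e32f22_lc

open Function

/-- A walk from a given vertex that uses all remaining edges. Every `i` with `E i` has two edges
`e1 i`, `e2 i`, to be used in this order; `o i` is the number of edges of `i` used so far. -/
inductive Walk {ι N : Type} [DecidableEq ι] (E : ι → Prop) (e1 e2 : ι → N × N) (fin : N) :
    N → (ι → ℕ) → Prop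
  | done (o : ι → ℕ) (h : ∀ i, E i → o i = 2) : Walk E e1 e2 fin fin o
  | fst (o : ι → ℕ) (i : ι) (hi : E i) (h : o i = 0)
      (w : Walk E e1 e2 fin (e1 i).2 (update o i 1)) : Walk E e1 e2 fin (e1 i).1 o
  | snd (o : ι → ℕ) (i : ι) (hi : E i) (h : o i = 1)
      (w : Walk E e1 e2 fin (e2 i).2 (update o i 2)) : Walk E e1 e2 fin (e2 i).1 o

/-- the left colour of a name -/
def cL (a : ℕ) : ℕ := 2 * a + 1

/-- the right colour of a name -/
def cR (a : ℕ) : ℕ := 2 * a + 2

/-- sign of a colour -/
def wt (x : ℕ) : ℤ := if x = 0 then 0 else if x % 2 = 1 then -1 else 1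

/-- does the colour have to leave the column? -/
def cnt (m c x : ℕ) : ℤ :=
  if c < m then (if x ≠ 0 ∧ x % 2 = 0 then 1 else 0) else (if x % 2 = 1 then 1 else 0)

theorem cnt_nonneg (m c x : ℕ) : 0 ≤ cnt m c x := by
  unfold cnt; split_ifs <;> norm_num

theorem cnt_le (m c x : ℕ) : cnt m c x ≤ 1 := by
  unfold cnt; split_ifs <;> norm_num

theorem cnt_L_left {m c : ℕ} (h : c < m) (a : ℕ) : cnt m c (cL a) = 0 := by
  unfold cnt cL; rw [if_pos h, if_neg]; omega

theorem cnt_R_left {m c : ℕ} (h : c < m) (a : ℕ) : cnt m c (cR a) = 1 := by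
  unfold cnt cR; rw [if_pos h, if_pos]; omega

theorem cnt_L_right {m c : ℕ} (h : m ≤ c) (a : ℕ) : cnt m c (cL a) = 1 := by
  unfold cnt cL; rw [if_neg (by omega), if_pos]; omega

theorem cnt_R_right {m c : ℕ} (h : m ≤ c) (a : ℕ) : cnt m c (cR a) = 0 := by
  unfold cnt cR; rw [if_neg (by omega), if_neg]; omega

theorem cnt_zero (m c : ℕ) : cnt m c 0 = 0 := by
  unfold cnt; simp

theorem wt_L (a : ℕ) : wt (cL a) = -1 := by
  unfold wt cL; rw [if_neg (by omega), if_pos (by omega)]

theorem wt_R (a : ℕ) : wt (cR a) = 1 := by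
  unfold wt cR; rw [if_neg (by omega), if_neg (by omega)]

theorem wt_abs (x : ℕ) : -1 ≤ wt x ∧ wt x ≤ 1 := by
  unfold wt; split_ifs <;> norm_num

/-- value of a token in a column -/
def val (m c x : ℕ) : ℤ := c * wt x - cnt m c x

/-- value of the columns -/
def colsum (m : ℕ) (P : ℕ → ℕ × ℕ) : ℤ :=
  ∑ c ∈ Finset.range (3 * m), (val m c (P c).1 + val m c (P c).2)

/-- the potential -/
def Om (m : ℕ) (s : St) : ℤ := colsum m s.P + s.j * wt s.e

theorem colsum_update (m : ℕ) (P : ℕ → ℕ × ℕ) {j : ℕ} (hj : j < 3 * m) (v : ℕ × ℕ) :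
    colsum m (update P j v) = colsum m P - (val m j (P j).1 + val m j (P j).2)
      + (val m j v.1 + val m j v.2) := by
  unfold colsum
  have hm : j ∈ Finset.range (3 * m) := Finset.mem_range.2 hj
  rw [← Finset.add_sum_erase _ _ hm, ← Finset.add_sum_erase _ (fun c =>
    val m c (P c).1 + val m c (P c).2) hm]
  have : ∑ x ∈ (Finset.range (3 * m)).erase j, (val m x (update P j v x).1 +
      val m x (update P j v x).2) =
      ∑ x ∈ (Finset.range (3 * m)).erase j, (val m x (P x).1 + val m x (P x).2) := by
    refine Finset.sum_congr rfl fun c hc => ?_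
    rw [update_of_ne (Finset.ne_of_mem_erase hc)]
  rw [this]
  simp only [update_self]
  ring

theorem Om_left (m : ℕ) {s : St} (h : 0 < s.j) :
    Om m (stp (3 * m) s (false, false)) = Om m s - wt s.e := by
  obtain ⟨t, j, e, P⟩ := s
  simp only at h
  obtain ⟨i, rfl⟩ : ∃ i, j = i + 1 := ⟨j - 1, by omega⟩
  simp only [stp, if_pos h, Om, Nat.add_sub_cancel]
  push_cast
  ring

theorem Om_right (m : ℕ) {s : St} (h : s.j + 1 < 3 * m) :
    Om m (stp (3 * m) s (false, true)) = Om m s + wt s.e := by
  simp only [stp, if_pos h, Om]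
  push_cast
  ring

theorem Om_up (m : ℕ) {s : St} (h : s.top = true) (hj : s.j < 3 * m) :
    Om m (stp (3 * m) s (true, true)) = Om m s + (cnt m s.j (s.P s.j).1 - cnt m s.j s.e) := by
  simp only [stp, if_pos h, Om, colsum_update m s.P hj, val]
  ring

theorem Om_down (m : ℕ) {s : St} (h : s.top = false) (hj : s.j < 3 * m) :
    Om m (stp (3 * m) s (true, false)) = Om m s + (cnt m s.j (s.P s.j).2 - cnt m s.j s.e) := by
  simp only [stp, if_neg (by simp [h] : ¬ s.top = true), Om, colsum_update m s.P hj, val]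
  ring

theorem Om_le (m : ℕ) {s : St} (hj : s.j < 3 * m) (d : Dir) :
    Om m (stp (3 * m) s d) ≤ Om m s + 1 := by
  have h1 := wt_abs s.e
  rcases d with ⟨_ | _, _ | _⟩
  · by_cases h : 0 < s.j
    · rw [Om_left m h]; omega
    · simp [stp, h]
  · by_cases h : s.j + 1 < 3 * m
    · rw [Om_right m h]; omega
    · simp [stp, h]
  · cases h : s.top
    · rw [Om_down m h hj]
      have := cnt_nonneg m s.j s.e
      have := cnt_le m s.j (s.P s.j).2
      omega
    · simp [stp, h]
  · cases h : s.top
    · simp [stp, h]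
    · rw [Om_up m h hj]
      have := cnt_nonneg m s.j s.e
      have := cnt_le m s.j (s.P s.j).1
      omega

theorem Om_foldl_le (m : ℕ) (l : List Dir) {s : St} (hj : s.j < 3 * m) :
    Om m (l.foldl (stp (3 * m)) s) ≤ Om m s + l.length := by
  induction l generalizing s with
  | nil => simp
  | cons d l ih =>
    have h1 := ih (stp_j hj d)
    have h2 := Om_le m hj d
    simp only [List.foldl_cons, List.length_cons]
    push_cast
    omega

/-- The data of a puzzle: the number of pairs of edges, the edges, the targets of all edges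
and the last vertex. -/
structure Lay where
  m : ℕ
  e1 : ℕ → ℕ × ℕ
  e2 : ℕ → ℕ × ℕ
  tt : ℕ → ℕ
  fin : ℕ

namespace Lay

variable (A : Lay)

/-- contents of a column with a pair of edges, `o` of them used -/
def lw (o c : ℕ) : ℕ × ℕ :=
  if o = 0 then (cR (A.e1 c).2, cR (A.e2 c).2)
  else if o = 1 then (cR (A.e2 c).2, cL (A.e1 c).1)
  else (cL (A.e1 c).1, cL (A.e2 c).1)

/-- contents of a converter column -/
def rw (u : Bool) (c : ℕ) : ℕ × ℕ :=
  if u = true then (cR (A.tt (c - A.m)), 0) else (0, cL (A.tt (c - A.m)))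

/-- contents of the columns -/
def ex (o : ℕ → ℕ) (u : ℕ → Bool) (c : ℕ) : ℕ × ℕ :=
  if c < A.m then A.lw (o c) c else if c < 3 * A.m then A.rw (u c) c else (0, 0)

/-- the last state -/
def last : St := ⟨true, 0, cL A.fin, A.ex (fun _ => 2) (fun _ => true)⟩

/-- weak information about a state -/
structure FI (s : St) (o : ℕ → ℕ) (u : ℕ → Bool) (cur : ℕ) : Prop where
  left : ∀ c, c < A.m → (o c = 0 ∧ s.P c = (cR (A.e1 c).2, cR (A.e2 c).2)) ∨
    (o c = 1 ∧ ∃ a, s.P c = (cR (A.e2 c).2, cL a)) ∨ (o c = 2 ∧ ∃ a b, s.P c = (cL a, cL b))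
  right : ∀ c, A.m ≤ c → c < 3 * A.m → (u c = false ∧ s.P c = (0, cL (A.tt (c - A.m)))) ∨
    (u c = true ∧ ∃ a, s.P c = (cR a, 0))
  hand : s.e = if s.top = true then cL cur else cR cur
  jlt : s.j < 3 * A.m

/-- exact information about a state -/
def BI (s : St) (o : ℕ → ℕ) (u : ℕ → Bool) : Prop :=
  ∀ c, c < 3 * A.m → s.P c = A.ex o u c

theorem cL_inj {a b : ℕ} (h : cL a = cL b) : a = b := by unfold cL at h; omega

theorem cR_inj {a b : ℕ} (h : cR a = cR b) : a = b := by unfold cR at h; omega

theorem cL_ne_cR (a b : ℕ) : cL a ≠ cR b := by unfold cL cR; omega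

theorem sound (l : List Dir) : ∀ (s : St) (o : ℕ → ℕ) (u : ℕ → Bool) (cur : ℕ), A.FI s o u cur →
    l.foldl (stp (3 * A.m)) s = A.last → (l.length : ℤ) ≤ Om A.m A.last - Om A.m s →
    A.BI s o u ∧ Walk (fun c => c < A.m) A.e1 A.e2 A.fin cur o := by
  induction l with
  | nil =>
    intro s o u cur hF hs _
    simp only [List.foldl_nil] at hs
    subst hs
    have ho : ∀ c, c < A.m → o c = 2 := by
      intro c hc
      have h1 : A.last.P c = (cL (A.e1 c).1, cL (A.e2 c).1) := by
        simp [last, ex, hc, lw]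
      rcases hF.left c hc with ⟨_, h⟩ | ⟨_, a, h⟩ | ⟨h, _⟩
      · rw [h1, Prod.mk.injEq] at h
        exact absurd h.1 (cL_ne_cR _ _)
      · rw [h1, Prod.mk.injEq] at h
        exact absurd h.1 (cL_ne_cR _ _)
      · exact h
    have hcur : cur = A.fin := by
      have := hF.hand
      simp only [last, if_true] at this
      exact (cL_inj this).symm
    subst hcur
    refine ⟨fun c hc => ?_, Walk.done _ ho⟩
    by_cases h : c < A.m
    · simp [last, ex, h, ho c h]
    · have h2 : u c = true := by
        rcases hF.right c (by omega) hc with ⟨_, h3⟩ | ⟨h3, _⟩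
        · simp [last, ex, h, hc, rw] at h3
          exact absurd h3.1 (by simp [cR])
        · exact h3
      simp [last, ex, h, h2]
  | cons d l ih =>
    intro s o u cur hF hs hlen
    simp only [List.foldl_cons] at hs
    simp only [List.length_cons] at hlen
    push_cast at hlen
    have h1 := Om_le A.m hF.jlt d
    have h2 := Om_foldl_le A.m l (stp_j hF.jlt d)
    rw [hs] at h2
    have h3 : Om A.m (stp (3 * A.m) s d) = Om A.m s + 1 := by omega
    have hlen' : (l.length : ℤ) ≤ Om A.m A.last - Om A.m (stp (3 * A.m) s d) := by omega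
    have hj := hF.jlt
    rcases d with ⟨_ | _, _ | _⟩
    · -- left
      have hj' := stp_j hF.jlt (false, false)
      by_cases h : 0 < s.j
      · have hst : stp (3 * A.m) s (false, false) = ⟨s.top, s.j - 1, s.e, s.P⟩ := by
          simp [stp, h]
        rw [hst] at hs hlen' hj'
        exact ih ⟨s.top, s.j - 1, s.e, s.P⟩ o u cur ⟨hF.left, hF.right, hF.hand, hj'⟩ hs hlen'
      · simp [stp, h] at h3
    · -- right
      have hj' := stp_j hF.jlt (false, true)
      by_cases h : s.j + 1 < 3 * A.m
      · have hst : stp (3 * A.m) s (false, true) = ⟨s.top, s.j + 1, s.e, s.P⟩ := by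
          simp [stp, h]
        rw [hst] at hs hlen' hj'
        exact ih ⟨s.top, s.j + 1, s.e, s.P⟩ o u cur ⟨hF.left, hF.right, hF.hand, hj'⟩ hs hlen'
      · simp [stp, h] at h3
    · -- down
      have hj' := stp_j hF.jlt (true, false)
      cases ht : s.top
      swap
      · simp [stp, ht] at h3
      rw [Om_down A.m ht hj] at h3
      have he : s.e = cR cur := by rw [hF.hand]; simp [ht]
      rw [he] at h3
      have h4 := cnt_le A.m s.j (s.P s.j).2
      by_cases hjm : s.j < A.m
      · rw [cnt_R_left hjm] at h3; omega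
      rw [cnt_R_right (by omega)] at h3
      rcases hF.right s.j (by omega) hj with ⟨hu, hP⟩ | ⟨hu, a, hP⟩
      swap
      · rw [hP] at h3
        simp only [cnt_zero] at h3
        omega
      have hst : stp (3 * A.m) s (true, false) =
          ⟨true, s.j, cL (A.tt (s.j - A.m)), update s.P s.j (cR cur, 0)⟩ := by
        simp [stp, ht, hP, he]
      rw [hst] at hs hlen' hj'
      have hF' : A.FI ⟨true, s.j, cL (A.tt (s.j - A.m)), update s.P s.j (cR cur, 0)⟩ o
          (update u s.j true) (A.tt (s.j - A.m)) := by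
        refine ⟨?_, ?_, rfl, hj'⟩
        · intro c hc
          have hcj : c ≠ s.j := by omega
          simp only [update_of_ne hcj]
          exact hF.left c hc
        · intro c hc hc'
          by_cases hcj : c = s.j
          · subst hcj
            right
            exact ⟨by simp, cur, by simp⟩
          · simp only [update_of_ne hcj]
            exact hF.right c hc hc'
      obtain ⟨hB, hW⟩ := ih _ _ _ _ hF' hs hlen'
      have h5 := hB s.j hj
      simp only [update_self, ex, if_neg hjm, if_pos hj, rw, if_true, Prod.mk.injEq,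
        and_true] at h5
      have h6 := cR_inj h5
      rw [h6]
      refine ⟨fun c hc => ?_, hW⟩
      by_cases hcj : c = s.j
      · subst hcj
        rw [hP]
        simp [ex, hjm, hj, rw, hu]
      · have h7 := hB c hc
        simp only [ex, update_of_ne hcj] at h7
        exact h7
    · -- up
      have hj' := stp_j hF.jlt (true, true)
      cases ht : s.top
      · simp [stp, ht] at h3
      rw [Om_up A.m ht hj] at h3
      have he : s.e = cL cur := by rw [hF.hand]; simp [ht]
      rw [he] at h3
      have h4 := cnt_le A.m s.j (s.P s.j).1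
      by_cases hjm : s.j < A.m
      swap
      · rw [cnt_L_right (by omega)] at h3; omega
      rw [cnt_L_left hjm] at h3
      have hright : ∀ (s' : St), (∀ c, c ≠ s.j → s'.P c = s.P c) → ∀ c, A.m ≤ c → c < 3 * A.m →
          (u c = false ∧ s'.P c = (0, cL (A.tt (c - A.m)))) ∨
          (u c = true ∧ ∃ a, s'.P c = (cR a, 0)) := by
        intro s' h c hc hc'
        rw [h c (by omega)]
        exact hF.right c hc hc'
      rcases hF.left s.j hjm with ⟨ho, hP⟩ | ⟨ho, a, hP⟩ | ⟨ho, a, b, hP⟩
      · have hst : stp (3 * A.m) s (true, true) =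
            ⟨false, s.j, cR (A.e1 s.j).2, update s.P s.j (cR (A.e2 s.j).2, cL cur)⟩ := by
          simp [stp, ht, hP, he]
        rw [hst] at hs hlen' hj'
        have hF' : A.FI ⟨false, s.j, cR (A.e1 s.j).2,
            update s.P s.j (cR (A.e2 s.j).2, cL cur)⟩ (update o s.j 1) u (A.e1 s.j).2 := by
          refine ⟨?_, hright _ fun c hc => by simp [update_of_ne hc], by simp, hj'⟩
          intro c hc
          by_cases hcj : c = s.j
          · subst hcj
            right; left
            exact ⟨by simp, cur, by simp⟩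
          · simp only [update_of_ne hcj]
            exact hF.left c hc
        obtain ⟨hB, hW⟩ := ih _ _ _ _ hF' hs hlen'
        have h5 := hB s.j hj
        simp only [update_self, ex, if_pos hjm, lw, one_ne_zero, if_false, if_true,
          Prod.mk.injEq, true_and] at h5
        have h6 := cL_inj h5
        constructor
        · intro c hc
          by_cases hcj : c = s.j
          · subst hcj
            rw [hP]
            simp [ex, hjm, lw, ho]
          · have h7 := hB c hc
            simp only [ex, update_of_ne hcj] at h7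
            exact h7
        · rw [h6]
          exact Walk.fst o s.j hjm ho hW
      · have hst : stp (3 * A.m) s (true, true) =
            ⟨false, s.j, cR (A.e2 s.j).2, update s.P s.j (cL a, cL cur)⟩ := by
          simp [stp, ht, hP, he]
        rw [hst] at hs hlen' hj'
        have hF' : A.FI ⟨false, s.j, cR (A.e2 s.j).2,
            update s.P s.j (cL a, cL cur)⟩ (update o s.j 2) u (A.e2 s.j).2 := by
          refine ⟨?_, hright _ fun c hc => by simp [update_of_ne hc], by simp, hj'⟩
          intro c hc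
          by_cases hcj : c = s.j
          · subst hcj
            right; right
            exact ⟨by simp, a, cur, by simp⟩
          · simp only [update_of_ne hcj]
            exact hF.left c hc
        obtain ⟨hB, hW⟩ := ih _ _ _ _ hF' hs hlen'
        have h5 := hB s.j hj
        have h20 : ¬ ((2 : ℕ) = 0) := by decide
        have h21 : ¬ ((2 : ℕ) = 1) := by decide
        simp only [update_self, ex, if_pos hjm, lw, if_neg h20, if_neg h21,
          Prod.mk.injEq] at h5
        have h6 := cL_inj h5.1
        have h8 := cL_inj h5.2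
        constructor
        · intro c hc
          by_cases hcj : c = s.j
          · subst hcj
            rw [hP]
            simp [ex, hjm, lw, ho, h6]
          · have h7 := hB c hc
            simp only [ex, update_of_ne hcj] at h7
            exact h7
        · rw [h8]
          exact Walk.snd o s.j hjm ho hW
      · rw [hP] at h3
        simp only [cnt_L_left hjm] at h3
        omega

/-! ### from walks to tight runs -/

/-- a tight run -/
def TR (s s' : St) : Prop :=
  ∃ l : List Dir, l.foldl (stp (3 * A.m)) s = s' ∧ (l.length : ℤ) = Om A.m s' - Om A.m s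

theorem TR.refl (s : St) : A.TR s s := ⟨[], rfl, by simp⟩

variable {A}

theorem TR.trans {s s' s'' : St} (h : A.TR s s') (h' : A.TR s' s'') : A.TR s s'' := by
  obtain ⟨l, h1, h2⟩ := h
  obtain ⟨l', h1', h2'⟩ := h'
  refine ⟨l ++ l', by rw [List.foldl_append, h1, h1'], ?_⟩
  rw [List.length_append]
  push_cast
  omega

theorem TR.one {s s' : St} (d : Dir) (h : stp (3 * A.m) s d = s')
    (h' : Om A.m s' = Om A.m s + 1) : A.TR s s' := by
  refine ⟨[d], h, ?_⟩
  simp only [List.length_cons, List.length_nil]
  push_cast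
  omega

theorem TR.moveL (j a : ℕ) (P : ℕ → ℕ × ℕ) : ∀ n, j + n < 3 * A.m →
    A.TR ⟨true, j + n, cL a, P⟩ ⟨true, j, cL a, P⟩ := by
  intro n
  induction n with
  | zero => intro _; exact TR.refl A _
  | succ n ih =>
    intro h
    have h1 : A.TR ⟨true, j + (n + 1), cL a, P⟩ ⟨true, j + n, cL a, P⟩ := by
      have h2 : stp (3 * A.m) ⟨true, j + (n + 1), cL a, P⟩ (false, false) =
          ⟨true, j + n, cL a, P⟩ := by
        simp [stp]
      refine TR.one (false, false) h2 ?_
      have h3 := Om_left A.m (s := ⟨true, j + (n + 1), cL a, P⟩) (by simp)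
      rw [h2] at h3
      rw [h3, wt_L]
      ring
    exact h1.trans (ih (by omega))

theorem TR.moveR (j a : ℕ) (P : ℕ → ℕ × ℕ) : ∀ n, j + n < 3 * A.m →
    A.TR ⟨false, j, cR a, P⟩ ⟨false, j + n, cR a, P⟩ := by
  intro n
  induction n with
  | zero => intro _; exact TR.refl A _
  | succ n ih =>
    intro h
    have h1 : A.TR ⟨false, j + n, cR a, P⟩ ⟨false, j + (n + 1), cR a, P⟩ := by
      have h2 : stp (3 * A.m) ⟨false, j + n, cR a, P⟩ (false, true) =
          ⟨false, j + (n + 1), cR a, P⟩ := by
        simp only [stp]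
        rw [if_pos (by omega)]
        rfl
      refine TR.one (false, true) h2 ?_
      have h3 := Om_right A.m (s := ⟨false, j + n, cR a, P⟩) (by simp only; omega)
      rw [h2] at h3
      rw [h3, wt_R]
    exact (ih (by omega)).trans h1

theorem TR.up {c a b y : ℕ} {P : ℕ → ℕ × ℕ} (hc : c < A.m) (hP : P c = (cR b, y)) :
    A.TR ⟨true, c, cL a, P⟩ ⟨false, c, cR b, update P c (y, cL a)⟩ := by
  have h2 : stp (3 * A.m) ⟨true, c, cL a, P⟩ (true, true) =
      ⟨false, c, cR b, update P c (y, cL a)⟩ := by
    simp [stp, hP]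
  refine TR.one (true, true) h2 ?_
  have h3 := Om_up A.m (s := ⟨true, c, cL a, P⟩) rfl (by simp; omega)
  rw [h2] at h3
  rw [h3]
  simp only [hP, cnt_R_left hc, cnt_L_left hc]
  ring

theorem TR.down {c a b : ℕ} {P : ℕ → ℕ × ℕ} (hc : A.m ≤ c) (hc' : c < 3 * A.m)
    (hP : P c = (0, cL b)) :
    A.TR ⟨false, c, cR a, P⟩ ⟨true, c, cL b, update P c (cR a, 0)⟩ := by
  have h2 : stp (3 * A.m) ⟨false, c, cR a, P⟩ (true, false) =
      ⟨true, c, cL b, update P c (cR a, 0)⟩ := by
    simp [stp, hP]
  refine TR.one (true, false) h2 ?_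
  have h3 := Om_down A.m (s := ⟨false, c, cR a, P⟩) rfl (by simp; omega)
  rw [h2] at h3
  rw [h3]
  simp only [hP, cnt_R_right hc, cnt_L_right hc]
  ring

variable (A)

/-- the converters that have been used -/
def uo (o : ℕ → ℕ) (c : ℕ) : Bool := decide ((c - A.m) % 2 < o ((c - A.m) / 2))

variable {A}

theorem run1 (ht : ∀ c, c < A.m → A.tt (2 * c) = (A.e1 c).2) {o : ℕ → ℕ} {c pos : ℕ}
    (hc : c < A.m) (ho : o c = 0) (hp : c ≤ pos) (hp' : pos < 3 * A.m) :
    A.TR ⟨true, pos, cL (A.e1 c).1, A.ex o (A.uo o)⟩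
      ⟨true, A.m + 2 * c, cL (A.e1 c).2, A.ex (update o c 1) (A.uo (update o c 1))⟩ := by
  obtain ⟨n, rfl⟩ := Nat.exists_eq_add_of_le hp
  have h1 := TR.moveL (A := A) c (A.e1 c).1 (A.ex o (A.uo o)) n hp'
  have h2 := TR.up (A := A) (c := c) (a := (A.e1 c).1) (P := A.ex o (A.uo o)) (b := (A.e1 c).2)
    (y := cR (A.e2 c).2) hc (by simp [ex, hc, lw, ho])
  have h3 := TR.moveR (A := A) c (A.e1 c).2
    (update (A.ex o (A.uo o)) c (cR (A.e2 c).2, cL (A.e1 c).1)) (A.m + c) (by omega)
  have e : c + (A.m + c) = A.m + 2 * c := by omega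
  rw [e] at h3
  have h4 := TR.down (A := A) (c := A.m + 2 * c) (a := (A.e1 c).2) (b := (A.e1 c).2)
    (P := update (A.ex o (A.uo o)) c (cR (A.e2 c).2, cL (A.e1 c).1)) (by omega) (by omega) (by
      rw [update_of_ne (by omega)]
      have : ¬ A.m + 2 * c < A.m := by omega
      simp [ex, this, rw, uo, ho, ht c hc]
      omega)
  have h5 : update (update (A.ex o (A.uo o)) c (cR (A.e2 c).2, cL (A.e1 c).1)) (A.m + 2 * c)
      (cR (A.e1 c).2, 0) = A.ex (update o c 1) (A.uo (update o c 1)) := by
    funext x
    by_cases hx : x = A.m + 2 * c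
    · subst hx
      have : ¬ A.m + 2 * c < A.m := by omega
      have h6 : A.m + 2 * c < 3 * A.m := by omega
      simp [ex, this, h6, rw, uo, ht c hc]
    · rw [update_of_ne hx]
      by_cases hxc : x = c
      · subst hxc
        simp [ex, hc, lw]
      · rw [update_of_ne hxc]
        unfold ex
        by_cases hxm : x < A.m
        · simp [hxm, update_of_ne hxc]
        · simp only [if_neg hxm]
          by_cases hx3 : x < 3 * A.m
          · simp only [if_pos hx3]
            congr 1
            unfold uo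
            by_cases hq : (x - A.m) / 2 = c
            · rw [hq, update_self, ho]
              have : (x - A.m) % 2 = 1 := by omega
              simp [this]
            · rw [update_of_ne hq]
          · simp only [if_neg hx3]
  rw [h5] at h4
  exact h1.trans (h2.trans (h3.trans h4))

theorem run2 (ht : ∀ c, c < A.m → A.tt (2 * c + 1) = (A.e2 c).2) {o : ℕ → ℕ} {c pos : ℕ}
    (hc : c < A.m) (ho : o c = 1) (hp : c ≤ pos) (hp' : pos < 3 * A.m) :
    A.TR ⟨true, pos, cL (A.e2 c).1, A.ex o (A.uo o)⟩
      ⟨true, A.m + 2 * c + 1, cL (A.e2 c).2, A.ex (update o c 2) (A.uo (update o c 2))⟩ := by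
  obtain ⟨n, rfl⟩ := Nat.exists_eq_add_of_le hp
  have h1 := TR.moveL (A := A) c (A.e2 c).1 (A.ex o (A.uo o)) n hp'
  have h2 := TR.up (A := A) (c := c) (a := (A.e2 c).1) (P := A.ex o (A.uo o)) (b := (A.e2 c).2)
    (y := cL (A.e1 c).1) hc (by simp [ex, hc, lw, ho])
  have h3 := TR.moveR (A := A) c (A.e2 c).2
    (update (A.ex o (A.uo o)) c (cL (A.e1 c).1, cL (A.e2 c).1)) (A.m + c + 1) (by omega)
  have e : c + (A.m + c + 1) = A.m + 2 * c + 1 := by omega
  rw [e] at h3
  have h4 := TR.down (A := A) (c := A.m + 2 * c + 1) (a := (A.e2 c).2) (b := (A.e2 c).2)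
    (P := update (A.ex o (A.uo o)) c (cL (A.e1 c).1, cL (A.e2 c).1)) (by omega) (by omega) (by
      rw [update_of_ne (by omega)]
      have h6 : ¬ A.m + 2 * c + 1 < A.m := by omega
      have h7 : A.m + 2 * c + 1 < 3 * A.m := by omega
      have h8 : A.m + 2 * c + 1 - A.m = 2 * c + 1 := by omega
      have h9 : (2 * c + 1) % 2 = 1 := by omega
      have h10 : (2 * c + 1) / 2 = c := by omega
      simp [ex, h6, h7, rw, uo, h8, h9, h10, ho, ht c hc])
  have h5 : update (update (A.ex o (A.uo o)) c (cL (A.e1 c).1, cL (A.e2 c).1))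
      (A.m + 2 * c + 1) (cR (A.e2 c).2, 0) = A.ex (update o c 2) (A.uo (update o c 2)) := by
    funext x
    by_cases hx : x = A.m + 2 * c + 1
    · subst hx
      have h6 : ¬ A.m + 2 * c + 1 < A.m := by omega
      have h7 : A.m + 2 * c + 1 < 3 * A.m := by omega
      have h8 : A.m + 2 * c + 1 - A.m = 2 * c + 1 := by omega
      have h9 : (2 * c + 1) % 2 = 1 := by omega
      have h10 : (2 * c + 1) / 2 = c := by omega
      simp [ex, h6, h7, rw, uo, h8, h9, h10, ht c hc]
    · rw [update_of_ne hx]
      by_cases hxc : x = c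
      · subst hxc
        simp [ex, hc, lw]
      · rw [update_of_ne hxc]
        unfold ex
        by_cases hxm : x < A.m
        · simp [hxm, update_of_ne hxc]
        · simp only [if_neg hxm]
          by_cases hx3 : x < 3 * A.m
          · simp only [if_pos hx3]
            congr 1
            unfold uo
            by_cases hq : (x - A.m) / 2 = c
            · rw [hq, update_self, ho]
              have : (x - A.m) % 2 = 0 := by omega
              simp [this]
            · rw [update_of_ne hq]
          · simp only [if_neg hx3]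
  rw [h5] at h4
  exact h1.trans (h2.trans (h3.trans h4))

theorem complete (ht1 : ∀ c, c < A.m → A.tt (2 * c) = (A.e1 c).2)
    (ht2 : ∀ c, c < A.m → A.tt (2 * c + 1) = (A.e2 c).2) {cur : ℕ} {o : ℕ → ℕ}
    (h : Walk (fun c => c < A.m) A.e1 A.e2 A.fin cur o) : ∀ pos, A.m ≤ pos → pos < 3 * A.m →
    A.TR ⟨true, pos, cL cur, A.ex o (A.uo o)⟩ A.last := by
  induction h with
  | done o ho =>
    intro pos h1 h2
    have h3 : A.ex o (A.uo o) = A.ex (fun _ => 2) (fun _ => true) := by
      funext x
      unfold ex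
      by_cases hxm : x < A.m
      · simp [hxm, ho x hxm]
      · simp only [if_neg hxm]
        by_cases hx3 : x < 3 * A.m
        · simp only [if_pos hx3]
          congr 1
          unfold uo
          rw [ho _ (by omega)]
          simp only [decide_eq_true_eq]
          omega
        · simp only [if_neg hx3]
    rw [h3]
    have h4 := TR.moveL (A := A) 0 A.fin (A.ex (fun _ => 2) (fun _ => true)) pos (by omega)
    rw [Nat.zero_add] at h4
    exact h4
  | fst o c hc ho w ih =>
    intro pos h1 h2
    exact (run1 ht1 hc ho (by omega) h2).trans (ih _ (by omega) (by omega))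
  | snd o c hc ho w ih =>
    intro pos h1 h2
    exact (run2 ht2 hc ho (by omega) h2).trans (ih _ (by omega) (by omega))

variable (A)

/-- the first state -/
def first (st : ℕ) : St := ⟨true, 0, cL st, A.ex (fun _ => 0) (fun _ => false)⟩

theorem sum_aux (m : ℕ) : ∑ c ∈ Finset.range (3 * m),
    (if c < m then 2 - 4 * (c : ℤ) else 2 * c + 1) = 6 * m ^ 2 + 4 * m := by
  have h0 : 3 * m = m + 2 * m := by ring
  rw [h0, Finset.sum_range_add]
  have h1 : ∀ k ≤ m, ∑ c ∈ Finset.range k, (if c < m then 2 - 4 * (c : ℤ) else 2 * c + 1) =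
      4 * k - 2 * k ^ 2 := by
    intro k
    induction k with
    | zero => simp
    | succ k ih =>
      intro hk
      rw [Finset.sum_range_succ, ih (by omega), if_pos (by omega)]
      push_cast
      ring
  have h2 : ∀ k, ∑ i ∈ Finset.range k, (if m + i < m then 2 - 4 * ((m + i : ℕ) : ℤ)
      else 2 * ((m + i : ℕ) : ℤ) + 1) = 2 * m * k + k ^ 2 := by
    intro k
    induction k with
    | zero => simp
    | succ k ih =>
      rw [Finset.sum_range_succ, ih, if_neg (by omega)]
      push_cast
      ring
  rw [h1 m le_rfl, h2]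
  push_cast
  ring

theorem Om_diff (st : ℕ) : Om A.m A.last - Om A.m (A.first st) = 6 * A.m ^ 2 + 4 * A.m := by
  rw [← sum_aux]
  simp only [Om, last, first, Nat.cast_zero, zero_mul, add_zero, colsum]
  rw [← Finset.sum_sub_distrib]
  refine Finset.sum_congr rfl fun c hc => ?_
  have hc' := Finset.mem_range.1 hc
  unfold ex
  by_cases h : c < A.m
  · have h20 : ¬ ((2 : ℕ) = 0) := by decide
    have h21 : ¬ ((2 : ℕ) = 1) := by decide
    simp only [if_pos h, lw, if_true, if_neg h20, if_neg h21, val, wt_L, wt_R, cnt_L_left h,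
      cnt_R_left h]
    ring
  · have h3 : A.m ≤ c := by omega
    simp only [if_neg h, if_pos hc', rw, if_true, Bool.false_eq_true, if_false, val, wt_L, wt_R,
      cnt_L_right h3, cnt_R_right h3, cnt_zero]
    have : wt 0 = 0 := rfl
    rw [this]
    ring

/-- the puzzle has a solution within the budget iff there is a walk -/
theorem main {st : ℕ} (hm : 0 < A.m) (ht1 : ∀ c, c < A.m → A.tt (2 * c) = (A.e1 c).2)
    (ht2 : ∀ c, c < A.m → A.tt (2 * c + 1) = (A.e2 c).2)
    (h0 : ∀ c, c < A.m → (A.e1 c).1 = st → c = 0) (hst : st ≠ A.fin) :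
    (∃ l : List Dir, l.foldl (stp (3 * A.m)) (A.first st) = A.last ∧
      l.length ≤ 6 * A.m ^ 2 + 4 * A.m) ↔
    Walk (fun c => c < A.m) A.e1 A.e2 A.fin st (fun _ => 0) := by
  have hd := A.Om_diff st
  constructor
  · rintro ⟨l, h1, h2⟩
    have hF : A.FI (A.first st) (fun _ => 0) (fun _ => false) st := by
      refine ⟨fun c hc => Or.inl ⟨rfl, ?_⟩, fun c hc hc' => Or.inl ⟨rfl, ?_⟩, by simp [first],
        by simp only [first]; omega⟩
      · simp [first, ex, hc, lw]
      · have : ¬ c < A.m := by omega
        simp [first, ex, this, hc', rw]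
    exact (A.sound l _ _ _ _ hF h1 (by rw [hd]; exact_mod_cast h2)).2
  · intro h
    have key : ∀ cur o, Walk (fun c => c < A.m) A.e1 A.e2 A.fin cur o → cur = st →
        (∀ i, o i = 0) → Walk (fun c => c < A.m) A.e1 A.e2 A.fin (A.e1 0).2
          (update o 0 1) ∧ (A.e1 0).1 = st := by
      intro cur o h hc ho
      cases h with
      | done _ h => exact absurd hc.symm hst
      | fst _ i hi h w =>
        have := h0 i hi hc
        subst this
        exact ⟨w, hc⟩
      | snd _ i hi h w => rw [ho] at h; omega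
    obtain ⟨w, hw⟩ := key _ _ h rfl fun _ => rfl
    have h1 := run1 (A := A) ht1 (o := fun _ => 0) (c := 0) (pos := 0) hm rfl le_rfl (by omega)
    have h2 := complete (A := A) ht1 ht2 w (A.m + 2 * 0) (by omega) (by omega)
    rw [hw] at h1
    obtain ⟨l, h3, h4⟩ := h1.trans h2
    have h5 : A.uo (fun _ => 0) = fun _ => false := by
      funext c; simp [uo]
    rw [h5] at h3 h4
    refine ⟨l, h3, ?_⟩
    have h6 : (l.length : ℤ) = 6 * A.m ^ 2 + 4 * A.m := by rw [h4, ← hd]; rfl
    exact_mod_cast h6.le

end Lay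

end Pool.Agent.Lib.MP_e32f22_lc
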